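import Mathlib

open MeasureTheory Set
open scoped ENNReal NNReal ContDiff

namespace Pool.Agent.Helper793.Rob

/-- `Ω` has Lipschitz boundary: near every boundary point `p`, after a rotation (multiplication by a
unimodular `e`), `Ω` is the region strictly below the graph of a Lipschitz function. -/
def LipschitzBoundary (Ω : Set ℂ) : Prop :=
  ∀ p ∈ frontier Ω, ∃ (e : ℂ) (K : ℝ≥0) (φ : ℝ → ℝ) (r : ℝ), ‖e‖ = 1 ∧ 0 < r ∧
    LipschitzWith K φ ∧
    ∀ z ∈ Metric.ball p r, (z ∈ Ω ↔ (e * (z - p)).im < φ ((e * (z - p)).re))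

/-- `|∇u|²` of a real function on the plane. -/
noncomputable def gradSq (u : ℂ → ℝ) (z : ℂ) : ℝ :=
  (fderiv ℝ u z 1) ^ 2 + (fderiv ℝ u z Complex.I) ^ 2

/-- The Robin form `∫_Ω |∇u|² + β ∫_{∂Ω} u² ds`, where `ds` is one-dimensional Hausdorff measure
(arc length). -/
noncomputable def energy (β : ℝ) (Ω : Set ℂ) (u : ℂ → ℝ) : ℝ≥0∞ :=
  (∫⁻ z in Ω, ENNReal.ofReal (gradSq u z)) +
    ENNReal.ofReal β * ∫⁻ z in frontier Ω, ENNReal.ofReal (u z ^ 2) ∂(Measure.hausdorffMeasure 1)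

/-- `∫_Ω u²`. -/
noncomputable def mass (Ω : Set ℂ) (u : ℂ → ℝ) : ℝ≥0∞ :=
  ∫⁻ z in Ω, ENNReal.ofReal (u z ^ 2)

/-- The `k`-dimensional spaces of smooth functions on the plane whose restrictions to `Ω` are still
`k`-dimensional. -/
def testSpaces (Ω : Set ℂ) (k : ℕ) : Set (Submodule ℝ (ℂ → ℝ)) :=
  {E | Module.finrank ℝ E = k ∧ ∀ u ∈ E, ContDiff ℝ ∞ u ∧ (u ≠ 0 → mass Ω u ≠ 0)}

/-- The `k`-th Robin eigenvalue with coefficient `β` by the min-max principle. -/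
noncomputable def nu (k : ℕ) (β : ℝ) (Ω : Set ℂ) : ℝ≥0∞ :=
  ⨅ E ∈ testSpaces Ω k, ⨆ u ∈ {u : ℂ → ℝ | u ∈ E ∧ u ≠ 0}, energy β Ω u / mass Ω u

/-- The ratio of the first two Robin eigenvalues, for the parameter `α`. -/
noncomputable def ratio (α : ℝ) (Ω : Set ℂ) : ℝ≥0∞ :=
  nu 2 (α / (1 - α)) Ω / nu 1 (α / (1 - α)) Ω

/-- The disk of area `A` centred at the origin. -/
noncomputable def disk (A : ℝ) : Set ℂ := Metric.ball 0 (Real.sqrt (A / Real.pi))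

end Pool.Agent.Helper793.Rob
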