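import Mathlib
import Pool.Agent.Helper793.Rob.Defs

open MeasureTheory Set
open scoped ENNReal NNReal ContDiff

namespace Pool.Agent.Helper793.Rob

theorem lip_re : LipschitzWith 1 (fun z : ℂ => z.re) := by
  apply LipschitzWith.of_dist_le_mul
  intro x y
  simp only [NNReal.coe_one, one_mul]
  rw [Real.dist_eq, Complex.dist_eq]
  have := Complex.abs_re_le_norm (x - y)
  simpa using this

/-- The graph of `g` over `I`, contained in `S`, contributes at least the integral over `I`. -/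
theorem graph_le {I : Set ℝ} {g : ℝ → ℝ} (hg : Measurable g) {S : Set ℂ}
    (hgS : ∀ x ∈ I, (⟨x, g x⟩ : ℂ) ∈ S) {F : ℂ → ℝ≥0∞} (hF : Measurable F) :
    ∫⁻ x in I, F ⟨x, g x⟩ ≤ ∫⁻ z in S, F z ∂(Measure.hausdorffMeasure 1) := by
  have hγ : Measurable (fun x : ℝ => (⟨x, g x⟩ : ℂ)) := by
    have : (fun x : ℝ => (⟨x, g x⟩ : ℂ)) = fun x : ℝ => ((x : ℂ) + (g x : ℂ) * Complex.I) := by
      funext x; exact Complex.mk_eq_add_mul_I x (g x)
    rw [this]
    fun_prop
  have h1 : ∫⁻ x in I, F ⟨x, g x⟩ = ∫⁻ z, F z ∂((volume.restrict I).map (fun x : ℝ => (⟨x, g x⟩ : ℂ))) := by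
    rw [lintegral_map hF hγ]
  rw [h1]
  apply lintegral_mono' _ le_rfl
  rw [Measure.le_iff]
  intro B hB
  rw [Measure.map_apply hγ hB, Measure.restrict_apply (hγ hB), Measure.restrict_apply hB]
  have h2 : (fun x : ℝ => (⟨x, g x⟩ : ℂ)) ⁻¹' B ∩ I ⊆ (fun z : ℂ => z.re) '' (B ∩ S) := by
    rintro x ⟨hx, hxI⟩
    exact ⟨⟨x, g x⟩, ⟨hx, hgS x hxI⟩, rfl⟩
  calc volume ((fun x : ℝ => (⟨x, g x⟩ : ℂ)) ⁻¹' B ∩ I)
      = Measure.hausdorffMeasure 1 ((fun x : ℝ => (⟨x, g x⟩ : ℂ)) ⁻¹' B ∩ I) := by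
        rw [MeasureTheory.hausdorffMeasure_real]
    _ ≤ Measure.hausdorffMeasure 1 ((fun z : ℂ => z.re) '' (B ∩ S)) := measure_mono h2
    _ ≤ ((1 : ℝ≥0) : ℝ≥0∞) ^ (1:ℝ) * Measure.hausdorffMeasure 1 (B ∩ S) :=
        lip_re.hausdorffMeasure_image_le zero_le_one _
    _ = Measure.hausdorffMeasure 1 (B ∩ S) := by simp

/-- pointwise estimate along a segment -/
theorem seg_bound {f : ℝ → ℝ} (hf : ContDiff ℝ 1 f) {a b y : ℝ} (hy : y ∈ Ioo a b) :
    ENNReal.ofReal (f y ^ 2) ≤ 2 * ENNReal.ofReal (f a ^ 2) +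
      ENNReal.ofReal (2 * (b - a)) * ∫⁻ t in Ioo a b, ENNReal.ofReal (deriv f t ^ 2) := by
  have hd : Continuous (deriv f) := hf.continuous_deriv le_rfl
  have hab : a < b := hy.1.trans hy.2
  have hfy : f y = f a + ∫ t in a..y, deriv f t := by
    rw [intervalIntegral.integral_deriv_eq_sub (fun x _ => hf.differentiable one_ne_zero x)
      (hd.intervalIntegrable _ _)]
    ring
  have hcs : (∫ t in a..y, deriv f t) ^ 2 ≤ (b - a) * ∫ t in a..b, deriv f t ^ 2 := by
    have h1 : |∫ t in a..y, deriv f t| ≤ ∫ t in a..b, |deriv f t| := by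
      calc |∫ t in a..y, deriv f t| ≤ ∫ t in a..y, |deriv f t| :=
            intervalIntegral.abs_integral_le_integral_abs hy.1.le
        _ ≤ ∫ t in a..b, |deriv f t| := by
            apply intervalIntegral.integral_mono_interval le_rfl hy.1.le hy.2.le
            · exact Filter.Eventually.of_forall (fun t => abs_nonneg _)
            · exact (hd.abs).intervalIntegrable _ _
    have h2 : (∫ t in a..b, |deriv f t|) ^ 2 ≤ (b - a) * ∫ t in a..b, deriv f t ^ 2 := by
      set J := ∫ t in a..b, |deriv f t| with hJ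
      have h3 : 0 ≤ ∫ t in a..b, (|deriv f t| - J / (b - a)) ^ 2 :=
        intervalIntegral.integral_nonneg hab.le (fun t _ => sq_nonneg _)
      have h4 : ∫ t in a..b, (|deriv f t| - J / (b - a)) ^ 2
          = (∫ t in a..b, deriv f t ^ 2) - J ^ 2 / (b - a) := by
        have : ∀ t, (|deriv f t| - J / (b - a)) ^ 2
            = deriv f t ^ 2 - (2 * (J / (b - a))) * |deriv f t| + (J / (b - a)) ^ 2 := by
          intro t
          have := sq_abs (deriv f t)
          nlinarith [this]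
        simp_rw [this]
        rw [intervalIntegral.integral_add, intervalIntegral.integral_sub,
          intervalIntegral.integral_const_mul, intervalIntegral.integral_const, ← hJ]
        · have hne : b - a ≠ 0 := by linarith
          simp only [smul_eq_mul]
          field_simp
          ring
        · exact (hd.pow 2).intervalIntegrable _ _
        · exact (continuous_const.mul hd.abs).intervalIntegrable _ _
        · exact ((hd.pow 2).sub (continuous_const.mul hd.abs)).intervalIntegrable _ _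
        · exact continuous_const.intervalIntegrable _ _
      rw [h4] at h3
      have hpos : 0 < b - a := by linarith
      have h5 : J ^ 2 / (b - a) ≤ ∫ t in a..b, deriv f t ^ 2 := by linarith
      rw [div_le_iff₀ hpos] at h5
      linarith
    calc (∫ t in a..y, deriv f t) ^ 2 = |∫ t in a..y, deriv f t| ^ 2 := (sq_abs _).symm
      _ ≤ (∫ t in a..b, |deriv f t|) ^ 2 := by
          apply pow_le_pow_left₀ (abs_nonneg _) h1
      _ ≤ _ := h2
  have hmain : f y ^ 2 ≤ 2 * f a ^ 2 + 2 * (b - a) * ∫ t in a..b, deriv f t ^ 2 := by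
    rw [hfy]
    nlinarith [sq_nonneg (f a - ∫ t in a..y, deriv f t)]
  have hint : ∫⁻ t in Ioo a b, ENNReal.ofReal (deriv f t ^ 2)
      = ENNReal.ofReal (∫ t in a..b, deriv f t ^ 2) := by
    rw [intervalIntegral.integral_of_le hab.le, Measure.restrict_congr_set Ioo_ae_eq_Ioc]
    rw [ofReal_integral_eq_lintegral_ofReal]
    · exact ((hd.pow 2).integrableOn_Icc).mono_set Ioc_subset_Icc_self
    · exact Filter.Eventually.of_forall (fun t => sq_nonneg _)
  rw [hint]
  calc ENNReal.ofReal (f y ^ 2)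
      ≤ ENNReal.ofReal (2 * f a ^ 2 + 2 * (b - a) * ∫ t in a..b, deriv f t ^ 2) :=
        ENNReal.ofReal_le_ofReal hmain
    _ ≤ _ := by
        refine ENNReal.ofReal_add_le.trans ?_
        gcongr
        · rw [ENNReal.ofReal_mul (by norm_num)]; simp
        · rw [ENNReal.ofReal_mul (by linarith)]

/-- derivative along a vertical line -/
theorem deriv_vert {u : ℂ → ℝ} (hu : ContDiff ℝ 1 u) (x t : ℝ) :
    deriv (fun t : ℝ => u ⟨x, t⟩) t = fderiv ℝ u ⟨x, t⟩ Complex.I := by
  have h1 : HasDerivAt (fun t : ℝ => (⟨x, t⟩ : ℂ)) Complex.I t := by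
    have : (fun t : ℝ => (⟨x, t⟩ : ℂ)) = fun t : ℝ => ((x : ℂ) + (t : ℂ) * Complex.I) := by
      funext s; exact Complex.mk_eq_add_mul_I x s
    rw [this]
    have h2 := ((Complex.ofRealCLM.hasDerivAt (x := t)).mul_const Complex.I).const_add (x : ℂ)
    simpa using h2
  have h3 : HasFDerivAt u (fderiv ℝ u ⟨x, t⟩) ⟨x, t⟩ :=
    (hu.differentiable one_ne_zero _).hasFDerivAt
  exact (h3.comp_hasDerivAt t h1).deriv

theorem deriv_horiz {u : ℂ → ℝ} (hu : ContDiff ℝ 1 u) (y t : ℝ) :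
    deriv (fun t : ℝ => u ⟨t, y⟩) t = fderiv ℝ u ⟨t, y⟩ 1 := by
  have h1 : HasDerivAt (fun t : ℝ => (⟨t, y⟩ : ℂ)) 1 t := by
    have : (fun t : ℝ => (⟨t, y⟩ : ℂ)) = fun t : ℝ => ((t : ℂ) + (y : ℂ) * Complex.I) := by
      funext s; exact Complex.mk_eq_add_mul_I s y
    rw [this]
    have h2 := ((Complex.ofRealCLM.hasDerivAt (x := t))).add_const ((y : ℂ) * Complex.I)
    simpa using h2
  have h3 : HasFDerivAt u (fderiv ℝ u ⟨t, y⟩) ⟨t, y⟩ :=
    (hu.differentiable one_ne_zero _).hasFDerivAt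
  exact (h3.comp_hasDerivAt t h1).deriv

theorem contDiff_mk_im (x : ℝ) : ContDiff ℝ 1 (fun t : ℝ => (⟨x, t⟩ : ℂ)) := by
  have : (fun t : ℝ => (⟨x, t⟩ : ℂ)) = fun t : ℝ => ((x : ℂ) + (t : ℂ) * Complex.I) := by
    funext s; exact Complex.mk_eq_add_mul_I x s
  rw [this]
  exact contDiff_const.add (Complex.ofRealCLM.contDiff.mul contDiff_const)

theorem contDiff_mk_re (y : ℝ) : ContDiff ℝ 1 (fun t : ℝ => (⟨t, y⟩ : ℂ)) := by
  have : (fun t : ℝ => (⟨t, y⟩ : ℂ)) = fun t : ℝ => ((t : ℂ) + (y : ℂ) * Complex.I) := by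
    funext s; exact Complex.mk_eq_add_mul_I s y
  rw [this]
  exact Complex.ofRealCLM.contDiff.add contDiff_const

/-- Fubini on the plane `ℂ` in terms of real and imaginary parts. -/
theorem lintegral_complex {F : ℂ → ℝ≥0∞} (hF : Measurable F) :
    ∫⁻ z, F z = ∫⁻ x : ℝ, ∫⁻ y : ℝ, F ⟨x, y⟩ := by
  have h := Complex.volume_preserving_equiv_real_prod.symm.lintegral_comp hF
  rw [← h, Measure.volume_eq_prod, lintegral_prod]
  · rfl
  · exact (hF.comp (Complex.measurableEquivRealProd.symm.measurable)).aemeasurable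

/-- The region between the graphs of `g` and `h` over `I`. -/
def reg (I : Set ℝ) (g h : ℝ → ℝ) : Set ℂ := {z | z.re ∈ I ∧ z.im ∈ Ioo (g z.re) (h z.re)}

theorem measurableSet_reg {I : Set ℝ} (hI : MeasurableSet I) {g h : ℝ → ℝ} (hg : Measurable g)
    (hh : Measurable h) : MeasurableSet (reg I g h) := by
  have h1 : reg I g h = (Complex.re ⁻¹' I) ∩ ({z | g z.re < z.im} ∩ {z | z.im < h z.re}) := by
    ext z; simp [reg]
  rw [h1]
  apply (Complex.measurable_re hI).inter
  apply MeasurableSet.inter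
  · exact measurableSet_lt (hg.comp Complex.measurable_re) Complex.measurable_im
  · exact measurableSet_lt Complex.measurable_im (hh.comp Complex.measurable_re)

theorem lintegral_reg {I : Set ℝ} (hI : MeasurableSet I) {g h : ℝ → ℝ} (hg : Measurable g)
    (hh : Measurable h) {F : ℂ → ℝ≥0∞} (hF : Measurable F) :
    ∫⁻ z in reg I g h, F z = ∫⁻ x in I, ∫⁻ y in Ioo (g x) (h x), F ⟨x, y⟩ := by
  have hm := measurableSet_reg hI hg hh
  rw [← lintegral_indicator hm, lintegral_complex (hF.indicator hm), ← lintegral_indicator hI]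
  apply lintegral_congr
  intro x
  by_cases hx : x ∈ I
  · rw [indicator_of_mem hx, ← lintegral_indicator measurableSet_Ioo]
    apply lintegral_congr
    intro y
    by_cases hy : y ∈ Ioo (g x) (h x)
    · rw [indicator_of_mem hy, indicator_of_mem]
      exact ⟨hx, hy⟩
    · rw [indicator_of_notMem hy, indicator_of_notMem]
      rintro ⟨_, h2⟩
      exact hy h2
  · rw [indicator_of_notMem hx]
    rw [lintegral_eq_zero_iff']
    · apply Filter.Eventually.of_forall
      intro y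
      apply indicator_of_notMem
      rintro ⟨h1, _⟩
      exact hx h1
    · exact ((hF.indicator hm).comp (contDiff_mk_im x).continuous.measurable).aemeasurable

theorem measurable_gradSq {u : ℂ → ℝ} (hu : ContDiff ℝ 1 u) : Measurable (gradSq u) := by
  have h1 : Continuous (fun z => fderiv ℝ u z) := hu.continuous_fderiv one_ne_zero
  unfold gradSq
  exact ((h1.clm_apply continuous_const).pow 2 |>.add ((h1.clm_apply continuous_const).pow 2)).measurable

theorem mass_reg_le {I : Set ℝ} (hI : MeasurableSet I) {g h : ℝ → ℝ} (hg : Measurable g)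
    (hh : Measurable h) {H : ℝ} (hH : ∀ x ∈ I, h x - g x ≤ H) (hH0 : 0 ≤ H)
    {u : ℂ → ℝ} (hu : ContDiff ℝ 1 u) :
    mass (reg I g h) u ≤ ENNReal.ofReal (2 * H) * (∫⁻ x in I, ENNReal.ofReal (u ⟨x, g x⟩ ^ 2)) +
      ENNReal.ofReal (2 * H ^ 2) * ∫⁻ z in reg I g h, ENNReal.ofReal (gradSq u z) := by
  have hum : Measurable (fun z => ENNReal.ofReal (u z ^ 2)) := (hu.continuous.measurable.pow_const 2).ennreal_ofReal
  have hgm : Measurable (fun z => ENNReal.ofReal (gradSq u z)) := (measurable_gradSq hu).ennreal_ofReal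
  unfold mass
  rw [lintegral_reg hI hg hh hum, lintegral_reg hI hg hh hgm]
  have key : ∀ x ∈ I, ∫⁻ y in Ioo (g x) (h x), ENNReal.ofReal (u ⟨x, y⟩ ^ 2) ≤
      ENNReal.ofReal (2 * H) * ENNReal.ofReal (u ⟨x, g x⟩ ^ 2) +
      ENNReal.ofReal (2 * H ^ 2) * ∫⁻ y in Ioo (g x) (h x), ENNReal.ofReal (gradSq u ⟨x, y⟩) := by
    intro x hx
    set f : ℝ → ℝ := fun t => u ⟨x, t⟩ with hf
    have hfc : ContDiff ℝ 1 f := hu.comp (contDiff_mk_im x)
    have hd : ∀ t, deriv f t ^ 2 ≤ gradSq u ⟨x, t⟩ := by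
      intro t
      rw [hf, deriv_vert hu x t]
      unfold gradSq
      nlinarith [sq_nonneg (fderiv ℝ u ⟨x, t⟩ 1)]
    have h1 : ∀ y ∈ Ioo (g x) (h x), ENNReal.ofReal (f y ^ 2) ≤ 2 * ENNReal.ofReal (f (g x) ^ 2) +
        ENNReal.ofReal (2 * H) * ∫⁻ t in Ioo (g x) (h x), ENNReal.ofReal (gradSq u ⟨x, t⟩) := by
      intro y hy
      refine (seg_bound hfc hy).trans ?_
      gcongr
      · exact hH x hx
      · exact hd _
    calc ∫⁻ y in Ioo (g x) (h x), ENNReal.ofReal (u ⟨x, y⟩ ^ 2)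
        ≤ ∫⁻ _ in Ioo (g x) (h x), (2 * ENNReal.ofReal (f (g x) ^ 2) +
        ENNReal.ofReal (2 * H) * ∫⁻ t in Ioo (g x) (h x), ENNReal.ofReal (gradSq u ⟨x, t⟩)) :=
          setLIntegral_mono' measurableSet_Ioo h1
      _ = (2 * ENNReal.ofReal (f (g x) ^ 2) +
        ENNReal.ofReal (2 * H) * ∫⁻ t in Ioo (g x) (h x), ENNReal.ofReal (gradSq u ⟨x, t⟩)) *
          ENNReal.ofReal (h x - g x) := by
          rw [setLIntegral_const, Real.volume_Ioo]
      _ ≤ (2 * ENNReal.ofReal (f (g x) ^ 2) +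
        ENNReal.ofReal (2 * H) * ∫⁻ t in Ioo (g x) (h x), ENNReal.ofReal (gradSq u ⟨x, t⟩)) *
          ENNReal.ofReal H := by
          gcongr
          exact hH x hx
      _ = _ := by
          have e1 : ENNReal.ofReal (2 * H) = 2 * ENNReal.ofReal H := by
            rw [ENNReal.ofReal_mul (by norm_num)]; simp
          have e2 : ENNReal.ofReal (2 * H ^ 2) = 2 * (ENNReal.ofReal H * ENNReal.ofReal H) := by
            rw [ENNReal.ofReal_mul (by norm_num), pow_two, ENNReal.ofReal_mul hH0]; simp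
          rw [e1, e2]
          ring
  calc ∫⁻ x in I, ∫⁻ y in Ioo (g x) (h x), ENNReal.ofReal (u ⟨x, y⟩ ^ 2)
      ≤ ∫⁻ x in I, (ENNReal.ofReal (2 * H) * ENNReal.ofReal (u ⟨x, g x⟩ ^ 2) +
      ENNReal.ofReal (2 * H ^ 2) * ∫⁻ y in Ioo (g x) (h x), ENNReal.ofReal (gradSq u ⟨x, y⟩)) :=
        setLIntegral_mono' hI key
    _ = _ := by
        have hγ : Measurable (fun x : ℝ => (⟨x, g x⟩ : ℂ)) := by
          have : (fun x : ℝ => (⟨x, g x⟩ : ℂ)) = fun x : ℝ => ((x : ℂ) + (g x : ℂ) * Complex.I) := by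
            funext x; exact Complex.mk_eq_add_mul_I x (g x)
          rw [this]
          fun_prop
        have m1 : Measurable (fun x => ENNReal.ofReal (2 * H) * ENNReal.ofReal (u ⟨x, g x⟩ ^ 2)) :=
          (hum.comp hγ).const_mul _
        rw [lintegral_add_left m1, lintegral_const_mul' _ _ ENNReal.ofReal_ne_top,
          lintegral_const_mul' _ _ ENNReal.ofReal_ne_top]

end Pool.Agent.Helper793.Rob
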