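import Mathlib
import Pool.Agent.Helper793.Rob.Trace

open MeasureTheory Set
open scoped ENNReal NNReal ContDiff

namespace Pool.Agent.Helper793.Rob

theorem abs_diff_le {f : ℝ → ℝ} (hf : ContDiff ℝ 1 f) {a b x y : ℝ} (hx : x ∈ Ioo a b)
    (hy : y ∈ Ioo a b) (hxy : x ≤ y) :
    |f y - f x| ≤ ∫ t in a..b, |deriv f t| := by
  have hd : Continuous (deriv f) := hf.continuous_deriv le_rfl
  have h1 : ∫ t in x..y, deriv f t = f y - f x :=
    intervalIntegral.integral_deriv_eq_sub (fun x _ => hf.differentiable one_ne_zero x)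
      (hd.intervalIntegrable _ _)
  rw [← h1]
  calc |∫ t in x..y, deriv f t| ≤ ∫ t in x..y, |deriv f t| :=
        intervalIntegral.abs_integral_le_integral_abs hxy
    _ ≤ ∫ t in a..b, |deriv f t| := by
        apply intervalIntegral.integral_mono_interval hx.1.le hxy hy.2.le
        · exact Filter.Eventually.of_forall (fun t => abs_nonneg _)
        · exact (hd.abs).intervalIntegrable _ _

theorem seg_diff {f : ℝ → ℝ} (hf : ContDiff ℝ 1 f) {a b x y : ℝ} (hx : x ∈ Ioo a b)
    (hy : y ∈ Ioo a b) :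
    ENNReal.ofReal ((f y - f x) ^ 2) ≤
      ENNReal.ofReal (b - a) * ∫⁻ t in Ioo a b, ENNReal.ofReal (deriv f t ^ 2) := by
  have hd : Continuous (deriv f) := hf.continuous_deriv le_rfl
  have hab : a < b := hy.1.trans hy.2
  have h1 : |f y - f x| ≤ ∫ t in a..b, |deriv f t| := by
    rcases le_total x y with h | h
    · exact abs_diff_le hf hx hy h
    · rw [abs_sub_comm]; exact abs_diff_le hf hy hx h
  have h2 : (∫ t in a..b, |deriv f t|) ^ 2 ≤ (b - a) * ∫ t in a..b, deriv f t ^ 2 := by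
    set J := ∫ t in a..b, |deriv f t| with hJ
    have h3 : 0 ≤ ∫ t in a..b, (|deriv f t| - J / (b - a)) ^ 2 :=
      intervalIntegral.integral_nonneg hab.le (fun t _ => sq_nonneg _)
    have h4 : ∫ t in a..b, (|deriv f t| - J / (b - a)) ^ 2
        = (∫ t in a..b, deriv f t ^ 2) - J ^ 2 / (b - a) := by
      have : ∀ t, (|deriv f t| - J / (b - a)) ^ 2
          = deriv f t ^ 2 - (2 * (J / (b - a))) * |deriv f t| + (J / (b - a)) ^ 2 := by
        intro t
        have := sq_abs (deriv f t)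
        nlinarith [this]
      simp_rw [this]
      rw [intervalIntegral.integral_add, intervalIntegral.integral_sub,
        intervalIntegral.integral_const_mul, intervalIntegral.integral_const, ← hJ]
      · have hne : b - a ≠ 0 := by linarith
        simp only [smul_eq_mul]
        field_simp
        ring
      · exact (hd.pow 2).intervalIntegrable _ _
      · exact (continuous_const.mul hd.abs).intervalIntegrable _ _
      · exact ((hd.pow 2).sub (continuous_const.mul hd.abs)).intervalIntegrable _ _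
      · exact continuous_const.intervalIntegrable _ _
    rw [h4] at h3
    have hpos : 0 < b - a := by linarith
    have h5 : J ^ 2 / (b - a) ≤ ∫ t in a..b, deriv f t ^ 2 := by linarith
    rw [div_le_iff₀ hpos] at h5
    linarith
  have hmain : (f y - f x) ^ 2 ≤ (b - a) * ∫ t in a..b, deriv f t ^ 2 := by
    calc (f y - f x) ^ 2 = |f y - f x| ^ 2 := (sq_abs _).symm
      _ ≤ (∫ t in a..b, |deriv f t|) ^ 2 := pow_le_pow_left₀ (abs_nonneg _) h1 2
      _ ≤ _ := h2
  have hint : ∫⁻ t in Ioo a b, ENNReal.ofReal (deriv f t ^ 2)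
      = ENNReal.ofReal (∫ t in a..b, deriv f t ^ 2) := by
    rw [intervalIntegral.integral_of_le hab.le, Measure.restrict_congr_set Ioo_ae_eq_Ioc]
    rw [ofReal_integral_eq_lintegral_ofReal]
    · exact ((hd.pow 2).integrableOn_Icc).mono_set Ioc_subset_Icc_self
    · exact Filter.Eventually.of_forall (fun t => sq_nonneg _)
  rw [hint, ← ENNReal.ofReal_mul (by linarith)]
  exact ENNReal.ofReal_le_ofReal hmain

theorem integrableOn_of_bounded {u : ℂ → ℝ} (hu : Continuous u) {Ω : Set ℂ}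
    (hΩ : Bornology.IsBounded Ω) : IntegrableOn u Ω := by
  have h1 : IsCompact (closure Ω) := hΩ.isCompact_closure
  exact (hu.continuousOn.integrableOn_compact h1).mono_set subset_closure

theorem mass_ne_top {u : ℂ → ℝ} (hu : Continuous u) {Ω : Set ℂ}
    (hΩ : Bornology.IsBounded Ω) : mass Ω u ≠ ⊤ := by
  have h1 : IntegrableOn (fun z => u z ^ 2) Ω := integrableOn_of_bounded (hu.pow 2) hΩ
  unfold mass
  rw [← ofReal_integral_eq_lintegral_ofReal h1 (Filter.Eventually.of_forall (fun t => sq_nonneg _))]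
  exact ENNReal.ofReal_ne_top

theorem mass_le_sub {u : ℂ → ℝ} (hu : Continuous u) {Q : Set ℂ}
    (hQ : Bornology.IsBounded Q) (h0 : ∫ z in Q, u z = 0) (c : ℝ) :
    mass Q u ≤ mass Q (fun z => u z - c) := by
  have h1 : IntegrableOn (fun z => u z ^ 2) Q := integrableOn_of_bounded (hu.pow 2) hQ
  have h2 : IntegrableOn (fun z => (u z - c) ^ 2) Q :=
    integrableOn_of_bounded ((hu.sub continuous_const).pow 2) hQ
  have h3 : IntegrableOn u Q := integrableOn_of_bounded hu hQ
  unfold mass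
  rw [← ofReal_integral_eq_lintegral_ofReal h1 (Filter.Eventually.of_forall (fun t => sq_nonneg _)),
    ← ofReal_integral_eq_lintegral_ofReal h2 (Filter.Eventually.of_forall (fun t => sq_nonneg _))]
  apply ENNReal.ofReal_le_ofReal
  have h4 : ∫ z in Q, (u z - c) ^ 2 = (∫ z in Q, u z ^ 2) - 2 * c * (∫ z in Q, u z)
      + ∫ z in Q, c ^ 2 := by
    rw [← integral_const_mul, ← integral_sub h1 (h3.const_mul _), ← integral_add]
    · apply integral_congr_ae
      apply Filter.Eventually.of_forall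
      intro z; simp only; ring
    · exact h1.sub (h3.const_mul _)
    · exact integrableOn_of_bounded continuous_const hQ
  rw [h4, h0]
  have : 0 ≤ ∫ z in Q, c ^ 2 := integral_nonneg (fun _ => sq_nonneg _)
  linarith

/-- The open square of side `s`. -/
def Qs (s : ℝ) : Set ℂ := reg (Ioo 0 s) (fun _ => 0) (fun _ => s)

theorem Qs_bounded (s : ℝ) : Bornology.IsBounded (Qs s) := by
  rw [isBounded_iff_forall_norm_le]
  refine ⟨|s| + |s|, ?_⟩
  rintro z ⟨h1, h2⟩
  refine (Complex.norm_le_abs_re_add_abs_im z).trans ?_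
  have h3 : |z.re| ≤ |s| := by
    rw [abs_of_pos h1.1]; exact h1.2.le.trans (le_abs_self s)
  have h4 : |z.im| ≤ |s| := by
    rw [abs_of_pos h2.1]; exact h2.2.le.trans (le_abs_self s)
  linarith

theorem poincare_square {s : ℝ} (hs : 0 < s) {u : ℂ → ℝ} (hu : ContDiff ℝ 1 u)
    (h0 : ∫ z in Qs s, u z = 0) :
    mass (Qs s) u ≤ ENNReal.ofReal (2 * s ^ 2) * ∫⁻ z in Qs s, ENNReal.ofReal (gradSq u z) := by
  set G : ℝ≥0∞ := ∫⁻ z in Qs s, ENNReal.ofReal (gradSq u z) with hG
  have hgm : Measurable (fun z => ENNReal.ofReal (gradSq u z)) := (measurable_gradSq hu).ennreal_ofReal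
  set A : ℝ → ℝ≥0∞ := fun y => ∫⁻ t in Ioo 0 s, ENNReal.ofReal ((fderiv ℝ u ⟨t, y⟩ 1) ^ 2) with hA
  set B : ℝ → ℝ≥0∞ := fun x => ∫⁻ t in Ioo 0 s, ENNReal.ofReal ((fderiv ℝ u ⟨x, t⟩ Complex.I) ^ 2) with hB
  have hfc : Continuous (fun z => fderiv ℝ u z) := hu.continuous_fderiv one_ne_zero
  have hm1 : Measurable (fun z => ENNReal.ofReal ((fderiv ℝ u z 1) ^ 2)) :=
    ((hfc.clm_apply continuous_const).pow 2).measurable.ennreal_ofReal
  have hmI : Measurable (fun z => ENNReal.ofReal ((fderiv ℝ u z Complex.I) ^ 2)) :=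
    ((hfc.clm_apply continuous_const).pow 2).measurable.ennreal_ofReal
  have hmk : Measurable (fun p : ℝ × ℝ => (⟨p.1, p.2⟩ : ℂ)) :=
    Complex.measurableEquivRealProd.symm.measurable
  have hB1 : ∫⁻ x in Ioo 0 s, B x = ∫⁻ z in Qs s, ENNReal.ofReal ((fderiv ℝ u z Complex.I) ^ 2) := by
    rw [Qs, lintegral_reg measurableSet_Ioo measurable_const measurable_const hmI]
  have hA1 : ∫⁻ y in Ioo 0 s, A y = ∫⁻ z in Qs s, ENNReal.ofReal ((fderiv ℝ u z 1) ^ 2) := by
    rw [Qs, lintegral_reg measurableSet_Ioo measurable_const measurable_const hm1]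
    rw [hA]
    rw [lintegral_lintegral_swap]
    exact ((hm1.comp hmk).comp measurable_swap).aemeasurable
  have hAB : (∫⁻ y in Ioo 0 s, A y) + (∫⁻ x in Ioo 0 s, B x) ≤ G := by
    rw [hA1, hB1, hG, ← lintegral_add_left hm1]
    apply lintegral_mono
    intro z
    show ENNReal.ofReal _ + ENNReal.ofReal _ ≤ ENNReal.ofReal _
    rw [← ENNReal.ofReal_add (sq_nonneg _) (sq_nonneg _)]
    exact le_rfl
  have hpt : ∀ x ∈ Ioo (0:ℝ) s, ∀ y ∈ Ioo (0:ℝ) s, ∀ x' ∈ Ioo (0:ℝ) s, ∀ y' ∈ Ioo (0:ℝ) s,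
      ENNReal.ofReal ((u ⟨x, y⟩ - u ⟨x', y'⟩) ^ 2) ≤
        ENNReal.ofReal (2 * s) * (A y + B x') := by
    intro x hx y hy x' hx' y' hy'
    have e1 := seg_diff (hu.comp (contDiff_mk_re y)) hx' hx
    have e2 := seg_diff (hu.comp (contDiff_mk_im x')) hy' hy
    have e3 : ∀ t, deriv (u ∘ fun t : ℝ => (⟨t, y⟩ : ℂ)) t = fderiv ℝ u ⟨t, y⟩ 1 :=
      fun t => deriv_horiz hu y t
    have e4 : ∀ t, deriv (u ∘ fun t : ℝ => (⟨x', t⟩ : ℂ)) t = fderiv ℝ u ⟨x', t⟩ Complex.I :=
      fun t => deriv_vert hu x' t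
    simp only [e3, e4, Function.comp, sub_zero] at e1 e2
    have e5 : (u ⟨x, y⟩ - u ⟨x', y'⟩) ^ 2 ≤ 2 * (u ⟨x, y⟩ - u ⟨x', y⟩) ^ 2
        + 2 * (u ⟨x', y⟩ - u ⟨x', y'⟩) ^ 2 := by
      nlinarith [sq_nonneg ((u ⟨x, y⟩ - u ⟨x', y⟩) - (u ⟨x', y⟩ - u ⟨x', y'⟩))]
    calc ENNReal.ofReal ((u ⟨x, y⟩ - u ⟨x', y'⟩) ^ 2)
        ≤ ENNReal.ofReal (2 * (u ⟨x, y⟩ - u ⟨x', y⟩) ^ 2 + 2 * (u ⟨x', y⟩ - u ⟨x', y'⟩) ^ 2) :=
          ENNReal.ofReal_le_ofReal e5
      _ = 2 * ENNReal.ofReal ((u ⟨x, y⟩ - u ⟨x', y⟩) ^ 2) +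
          2 * ENNReal.ofReal ((u ⟨x', y⟩ - u ⟨x', y'⟩) ^ 2) := by
          rw [ENNReal.ofReal_add (by positivity) (by positivity),
            ENNReal.ofReal_mul (by norm_num), ENNReal.ofReal_mul (by norm_num)]
          simp
      _ ≤ 2 * (ENNReal.ofReal s * A y) + 2 * (ENNReal.ofReal s * B x') := by
          gcongr
      _ = _ := by
          have : ENNReal.ofReal (2 * s) = 2 * ENNReal.ofReal s := by
            rw [ENNReal.ofReal_mul (by norm_num)]; simp
          rw [this]; ring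
  have hum : ∀ c : ℝ, Measurable (fun z => ENNReal.ofReal ((u z - c) ^ 2)) := fun c =>
    ((hu.continuous.measurable.sub_const c).pow_const 2).ennreal_ofReal
  have hAm : Measurable A := by
    apply Measurable.lintegral_prod_right'
      (f := fun p : ℝ × ℝ => ENNReal.ofReal ((fderiv ℝ u ⟨p.2, p.1⟩ 1) ^ 2))
    exact (hm1.comp hmk).comp measurable_swap
  have hBm : Measurable B := by
    apply Measurable.lintegral_prod_right'
      (f := fun p : ℝ × ℝ => ENNReal.ofReal ((fderiv ℝ u ⟨p.1, p.2⟩ Complex.I) ^ 2))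
    exact (hmI.comp hmk)
  have hstep : ∀ x' ∈ Ioo (0:ℝ) s, ∀ y' ∈ Ioo (0:ℝ) s,
      mass (Qs s) u ≤ ENNReal.ofReal (2 * s) * (ENNReal.ofReal s * (∫⁻ y in Ioo 0 s, A y)
        + ENNReal.ofReal s * ENNReal.ofReal s * B x') := by
    intro x' hx' y' hy'
    refine (mass_le_sub hu.continuous (Qs_bounded s) h0 (u ⟨x', y'⟩)).trans ?_
    unfold mass
    rw [Qs, lintegral_reg measurableSet_Ioo measurable_const measurable_const (hum _)]
    calc ∫⁻ x in Ioo 0 s, ∫⁻ y in Ioo 0 s, ENNReal.ofReal ((u ⟨x, y⟩ - u ⟨x', y'⟩) ^ 2)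
        ≤ ∫⁻ x in Ioo 0 s, ∫⁻ y in Ioo 0 s, ENNReal.ofReal (2 * s) * (A y + B x') :=
          setLIntegral_mono' measurableSet_Ioo (fun x hx =>
            setLIntegral_mono' measurableSet_Ioo (fun y hy => hpt x hx y hy x' hx' y' hy'))
      _ = _ := by
          rw [lintegral_const_mul' _ _ ENNReal.ofReal_ne_top, lintegral_add_left hAm,
            setLIntegral_const, setLIntegral_const, Real.volume_Ioo, sub_zero]
          ring
  have hfin : ENNReal.ofReal s * ENNReal.ofReal s * mass (Qs s) u ≤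
      ENNReal.ofReal s * ENNReal.ofReal s * (ENNReal.ofReal (2 * s ^ 2) * G) := by
    calc ENNReal.ofReal s * ENNReal.ofReal s * mass (Qs s) u
        = ∫⁻ x' in Ioo 0 s, ∫⁻ y' in Ioo 0 s, mass (Qs s) u := by
          rw [setLIntegral_const, setLIntegral_const, Real.volume_Ioo, sub_zero]
          ring
      _ ≤ ∫⁻ x' in Ioo 0 s, ∫⁻ y' in Ioo 0 s, ENNReal.ofReal (2 * s) *
          (ENNReal.ofReal s * (∫⁻ y in Ioo 0 s, A y)
          + ENNReal.ofReal s * ENNReal.ofReal s * B x') :=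
          setLIntegral_mono' measurableSet_Ioo (fun x' hx' =>
            setLIntegral_mono' measurableSet_Ioo (fun y' hy' => hstep x' hx' y' hy'))
      _ = ENNReal.ofReal (2 * s) * (ENNReal.ofReal s * ENNReal.ofReal s * ENNReal.ofReal s) *
            ((∫⁻ y in Ioo 0 s, A y) + ∫⁻ x in Ioo 0 s, B x) := by
          simp_rw [setLIntegral_const, Real.volume_Ioo, sub_zero]
          rw [lintegral_mul_const' _ _ ENNReal.ofReal_ne_top,
            lintegral_const_mul' _ _ ENNReal.ofReal_ne_top,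
            lintegral_add_left measurable_const, setLIntegral_const, Real.volume_Ioo, sub_zero,
            lintegral_const_mul' _ _ (ENNReal.mul_ne_top ENNReal.ofReal_ne_top ENNReal.ofReal_ne_top)]
          ring
      _ ≤ ENNReal.ofReal (2 * s) * (ENNReal.ofReal s * ENNReal.ofReal s * ENNReal.ofReal s) * G := by
          gcongr
      _ = _ := by
          have e1 : ENNReal.ofReal (2 * s) = 2 * ENNReal.ofReal s := by
            rw [ENNReal.ofReal_mul (by norm_num)]; simp
          have e2 : ENNReal.ofReal (2 * s ^ 2) = 2 * (ENNReal.ofReal s * ENNReal.ofReal s) := by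
            rw [ENNReal.ofReal_mul (by norm_num), pow_two, ENNReal.ofReal_mul hs.le]; simp
          rw [e1, e2]
          ring
  have hs0 : ENNReal.ofReal s * ENNReal.ofReal s ≠ 0 := by
    simp [hs]
  have hst : ENNReal.ofReal s * ENNReal.ofReal s ≠ ⊤ :=
    ENNReal.mul_ne_top ENNReal.ofReal_ne_top ENNReal.ofReal_ne_top
  exact (ENNReal.mul_le_mul_iff_right hs0 hst).mp hfin

end Pool.Agent.Helper793.Rob
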