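import Mathlib
import Pool.Agent.Helper793.Rob.Poin

open MeasureTheory Set
open scoped ENNReal NNReal ContDiff

namespace Pool.Agent.Helper793.Rob

/-- The L-shaped hexagon: a square of side `s` with a tail of width `ρ`, total length `L`. -/
def hex (s ρ L : ℝ) : Set ℂ :=
  {z | 0 < z.re ∧ 0 < z.im ∧ ((z.re < s ∧ z.im < s) ∨ (z.re < L ∧ z.im < ρ))}

theorem isOpen_hex (s ρ L : ℝ) : IsOpen (hex s ρ L) := by
  have h1 : hex s ρ L = {z : ℂ | 0 < z.re} ∩ ({z | 0 < z.im} ∩
      (({z | z.re < s} ∩ {z | z.im < s}) ∪ ({z | z.re < L} ∩ {z | z.im < ρ}))) := by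
    ext z; simp [hex]
  rw [h1]
  refine (isOpen_lt continuous_const Complex.continuous_re).inter
    ((isOpen_lt continuous_const Complex.continuous_im).inter (IsOpen.union ?_ ?_))
  · exact (isOpen_lt Complex.continuous_re continuous_const).inter
      (isOpen_lt Complex.continuous_im continuous_const)
  · exact (isOpen_lt Complex.continuous_re continuous_const).inter
      (isOpen_lt Complex.continuous_im continuous_const)

theorem hex_bounded {s ρ L : ℝ} (hρ : 0 < ρ) (hρs : ρ < s) (hsL : s < L) :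
    Bornology.IsBounded (hex s ρ L) := by
  rw [isBounded_iff_forall_norm_le]
  refine ⟨L + s, ?_⟩
  rintro z ⟨h1, h2, h3⟩
  refine (Complex.norm_le_abs_re_add_abs_im z).trans ?_
  rw [abs_of_pos h1, abs_of_pos h2]
  rcases h3 with h | h <;> linarith [h.1, h.2]

theorem closure_hex_sub {s ρ L : ℝ} (hρ : 0 < ρ) (hρs : ρ < s) (hsL : s < L) :
    closure (hex s ρ L) ⊆ {z | 0 ≤ z.re ∧ 0 ≤ z.im ∧ ((z.re ≤ s ∧ z.im ≤ s) ∨ (z.re ≤ L ∧ z.im ≤ ρ))} := by
  apply closure_minimal
  · rintro z ⟨h1, h2, h3⟩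
    refine ⟨h1.le, h2.le, ?_⟩
    rcases h3 with h | h
    · exact Or.inl ⟨h.1.le, h.2.le⟩
    · exact Or.inr ⟨h.1.le, h.2.le⟩
  · have h1 : {z : ℂ | 0 ≤ z.re ∧ 0 ≤ z.im ∧ ((z.re ≤ s ∧ z.im ≤ s) ∨ (z.re ≤ L ∧ z.im ≤ ρ))}
        = {z : ℂ | 0 ≤ z.re} ∩ ({z | 0 ≤ z.im} ∩
        (({z | z.re ≤ s} ∩ {z | z.im ≤ s}) ∪ ({z | z.re ≤ L} ∩ {z | z.im ≤ ρ}))) := by
      ext z; simp
    rw [h1]
    refine (isClosed_le continuous_const Complex.continuous_re).inter
      ((isClosed_le continuous_const Complex.continuous_im).inter (IsClosed.union ?_ ?_))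
    · exact (isClosed_le Complex.continuous_re continuous_const).inter
        (isClosed_le Complex.continuous_im continuous_const)
    · exact (isClosed_le Complex.continuous_re continuous_const).inter
        (isClosed_le Complex.continuous_im continuous_const)

/-- wedge lemma: local description by two quadrants gives a Lipschitz graph -/
theorem graph_of_wedge {Ω : Set ℂ} {p : ℂ} {r : ℝ} (hr : 0 < r) {σ τ : ℝ}
    (hσ : σ = 1 ∨ σ = -1) (hτ : τ = 1 ∨ τ = -1) (A₁ B₁ A₂ B₂ : ℝ)
    (h : ∀ z ∈ Metric.ball p r, (z ∈ Ω ↔ ((σ * (z - p).re < A₁ ∧ τ * (z - p).im < B₁) ∨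
      (σ * (z - p).re < A₂ ∧ τ * (z - p).im < B₂)))) :
    ∃ (e : ℂ) (K : ℝ≥0) (φ : ℝ → ℝ) (r : ℝ), ‖e‖ = 1 ∧ 0 < r ∧ LipschitzWith K φ ∧
      ∀ z ∈ Metric.ball p r, (z ∈ Ω ↔ (e * (z - p)).im < φ ((e * (z - p)).re)) := by
  have h2 : (0:ℝ) < Real.sqrt 2 := Real.sqrt_pos.mpr (by norm_num)
  have h22 : Real.sqrt 2 * Real.sqrt 2 = 2 := Real.mul_self_sqrt (by norm_num)
  have hσ2 : σ * σ = 1 := by rcases hσ with h | h <;> rw [h] <;> norm_num
  have hτ2 : τ * τ = 1 := by rcases hτ with h | h <;> rw [h] <;> norm_num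
  set κ := σ * τ with hκ
  have hκ2 : κ * κ = 1 := by rw [hκ]; calc σ * τ * (σ * τ) = (σ * σ) * (τ * τ) := by ring
    _ = 1 := by rw [hσ2, hτ2]; norm_num
  have hκabs : |κ| = 1 := by
    have : |κ| * |κ| = 1 := by rw [← abs_mul, hκ2, abs_one]
    nlinarith [abs_nonneg κ]
  have hlin : ∀ c d : ℝ, |d| = 1 → LipschitzWith 1 (fun ξ : ℝ => c + d * ξ) := by
    intro c d hd
    apply LipschitzWith.of_dist_le_mul
    intro x y
    simp only [Real.dist_eq, NNReal.coe_one, one_mul]
    have : c + d * x - (c + d * y) = d * (x - y) := by ring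
    rw [this, abs_mul, hd, one_mul]
  refine ⟨⟨τ / Real.sqrt 2, σ / Real.sqrt 2⟩, max (max 1 1) (max 1 1),
    fun ξ => max (min (Real.sqrt 2 * A₁ + (-κ) * ξ) (Real.sqrt 2 * B₁ + κ * ξ))
      (min (Real.sqrt 2 * A₂ + (-κ) * ξ) (Real.sqrt 2 * B₂ + κ * ξ)), r, ?_, hr, ?_, ?_⟩
  · rw [Complex.norm_eq_sqrt_sq_add_sq]
    rw [Real.sqrt_eq_one]
    simp only [div_pow]
    rw [Real.sq_sqrt (by norm_num : (0:ℝ) ≤ 2)]
    nlinarith
  · have k1 : |(-κ)| = 1 := by rw [abs_neg]; exact hκabs
    exact ((hlin _ _ k1).min (hlin _ _ hκabs)).max ((hlin _ _ k1).min (hlin _ _ hκabs))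
  · intro z hz
    rw [h z hz]
    set X := (z - p).re with hX
    set Y := (z - p).im with hY
    have him : ((⟨τ / Real.sqrt 2, σ / Real.sqrt 2⟩ : ℂ) * (z - p)).im
        = (σ * X + τ * Y) / Real.sqrt 2 := by
      rw [Complex.mul_im]
      simp only [← hX, ← hY]
      ring
    have hre : ((⟨τ / Real.sqrt 2, σ / Real.sqrt 2⟩ : ℂ) * (z - p)).re
        = (τ * X - σ * Y) / Real.sqrt 2 := by
      rw [Complex.mul_re]
      simp only [← hX, ← hY]
      ring
    rw [him, hre]
    have e1 : ∀ A : ℝ, ((σ * X + τ * Y) / Real.sqrt 2 < Real.sqrt 2 * A + (-κ) * ((τ * X - σ * Y) / Real.sqrt 2))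
        ↔ σ * X < A := by
      intro A
      have hid : Real.sqrt 2 * A + (-κ) * ((τ * X - σ * Y) / Real.sqrt 2)
          = (2 * A - (σ * X - τ * Y)) / Real.sqrt 2 := by
        have : κ * (τ * X - σ * Y) = σ * X - τ * Y := by
          rw [hκ]
          calc σ * τ * (τ * X - σ * Y) = σ * (τ * τ) * X - (σ * σ) * τ * Y := by ring
            _ = _ := by rw [hσ2, hτ2]; ring
        field_simp
        rw [show Real.sqrt 2 ^ 2 = 2 from Real.sq_sqrt (by norm_num)]
        nlinarith [this]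
      rw [hid, div_lt_div_iff_of_pos_right h2]
      constructor <;> intro h <;> linarith
    have e2 : ∀ B : ℝ, ((σ * X + τ * Y) / Real.sqrt 2 < Real.sqrt 2 * B + κ * ((τ * X - σ * Y) / Real.sqrt 2))
        ↔ τ * Y < B := by
      intro B
      have hid : Real.sqrt 2 * B + κ * ((τ * X - σ * Y) / Real.sqrt 2)
          = (2 * B + (σ * X - τ * Y)) / Real.sqrt 2 := by
        have : κ * (τ * X - σ * Y) = σ * X - τ * Y := by
          rw [hκ]
          calc σ * τ * (τ * X - σ * Y) = σ * (τ * τ) * X - (σ * σ) * τ * Y := by ring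
            _ = _ := by rw [hσ2, hτ2]; ring
        field_simp
        rw [show Real.sqrt 2 ^ 2 = 2 from Real.sq_sqrt (by norm_num)]
        nlinarith [this]
      rw [hid, div_lt_div_iff_of_pos_right h2]
      constructor <;> intro h <;> linarith
    rw [lt_max_iff, lt_min_iff, lt_min_iff, e1, e1, e2, e2]

theorem lipschitz_hex {s ρ L : ℝ} (hρ : 0 < ρ) (hρs : ρ < s) (hsL : s < L) :
    LipschitzBoundary (hex s ρ L) := by
  intro p hp
  have hp' := closure_hex_sub hρ hρs hsL (frontier_subset_closure hp)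
  obtain ⟨ha, hb, hc⟩ := hp'
  have hbs : p.im ≤ s := by rcases hc with h | h <;> linarith [h.2]
  have hball : ∀ (r : ℝ) (z : ℂ), z ∈ Metric.ball p r → |(z - p).re| < r ∧ |(z - p).im| < r := by
    intro r z hz
    rw [Metric.mem_ball, Complex.dist_eq] at hz
    exact ⟨(Complex.abs_re_le_norm _).trans_lt hz, (Complex.abs_im_le_norm _).trans_lt hz⟩
  rcases lt_or_eq_of_le ha with ha0 | ha0
  · rcases lt_or_eq_of_le hb with hb0 | hb0
    · -- interior of the quadrant
      apply graph_of_wedge (r := min p.re p.im) (lt_min ha0 hb0) (Or.inl rfl : (1:ℝ) = 1 ∨ _)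
        (Or.inl rfl : (1:ℝ) = 1 ∨ _) (s - p.re) (s - p.im) (L - p.re) (ρ - p.im)
      intro z hz
      obtain ⟨h1, h2⟩ := hball _ z hz
      have h1' := (abs_lt.mp (h1.trans_le (min_le_left _ _))).1
      have h2' := (abs_lt.mp (h2.trans_le (min_le_right _ _))).1
      simp only [Complex.sub_re, Complex.sub_im] at *
      have k1 : 0 < z.re := by linarith
      have k2 : 0 < z.im := by linarith
      simp only [hex, mem_setOf_eq, k1, k2, true_and, one_mul, sub_lt_sub_iff_right]
    · -- bottom edge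
      apply graph_of_wedge (r := min ρ p.re) (lt_min hρ ha0) (Or.inl rfl : (1:ℝ) = 1 ∨ _)
        (Or.inr rfl : (-1:ℝ) = 1 ∨ _) (L - p.re) 0 (L - p.re) 0
      intro z hz
      obtain ⟨h1, h2⟩ := hball _ z hz
      have h1' := (abs_lt.mp (h1.trans_le (min_le_right _ _)))
      have h2' := (abs_lt.mp (h2.trans_le (min_le_left _ _)))
      simp only [Complex.sub_re, Complex.sub_im] at *
      constructor
      · rintro ⟨k1, k2, k3⟩
        left
        constructor
        · rcases k3 with h | h <;> linarith [h.1]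
        · linarith
      · intro h
        have h' : 1 * (z.re - p.re) < L - p.re ∧ -1 * (z.im - p.im) < 0 := by
          rcases h with h | h <;> exact h
        refine ⟨by linarith, by linarith [h'.2], Or.inr ⟨by linarith [h'.1], by linarith⟩⟩
  · rcases lt_or_eq_of_le hbs with hb0 | hb0
    · -- left edge
      have hs : 0 < s := by linarith
      apply graph_of_wedge (r := min s (s - p.im)) (lt_min hs (by linarith))
        (Or.inr rfl : (-1:ℝ) = 1 ∨ _)
        (Or.inr rfl : (-1:ℝ) = 1 ∨ _) 0 p.im 0 p.im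
      intro z hz
      obtain ⟨h1, h2⟩ := hball _ z hz
      have h1' := (abs_lt.mp (h1.trans_le (min_le_left _ _)))
      have h2' := (abs_lt.mp (h2.trans_le (min_le_right _ _)))
      simp only [Complex.sub_re, Complex.sub_im] at *
      constructor
      · rintro ⟨k1, k2, k3⟩
        left
        constructor <;> linarith
      · intro h
        have h' : -1 * (z.re - p.re) < 0 ∧ -1 * (z.im - p.im) < p.im := by
          rcases h with h | h <;> exact h
        refine ⟨by linarith [h'.1], by linarith [h'.2], Or.inl ⟨by linarith, by linarith⟩⟩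
    · -- top left corner
      have hs : 0 < s := by linarith
      apply graph_of_wedge (r := s) hs (Or.inr rfl : (-1:ℝ) = 1 ∨ _)
        (Or.inl rfl : (1:ℝ) = 1 ∨ _) 0 0 0 0
      intro z hz
      obtain ⟨h1, h2⟩ := hball _ z hz
      have h1' := abs_lt.mp h1
      have h2' := abs_lt.mp h2
      simp only [Complex.sub_re, Complex.sub_im] at *
      constructor
      · rintro ⟨k1, k2, k3⟩
        left
        constructor
        · linarith
        · rcases k3 with h | h <;> linarith [h.2]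
      · intro h
        have h' : -1 * (z.re - p.re) < 0 ∧ 1 * (z.im - p.im) < 0 := by
          rcases h with h | h <;> exact h
        refine ⟨by linarith [h'.1], by linarith, Or.inl ⟨by linarith, by linarith [h'.2]⟩⟩

theorem starConvex_hex {s ρ L : ℝ} (hρ : 0 < ρ) (hρs : ρ < s) (hsL : s < L) :
    StarConvex ℝ (⟨ρ / 2, ρ / 2⟩ : ℂ) (hex s ρ L) ∧ (⟨ρ / 2, ρ / 2⟩ : ℂ) ∈ hex s ρ L := by
  constructor
  · intro z hz a b ha hb hab
    obtain ⟨h1, h2, h3⟩ := hz
    have hre : (a • (⟨ρ / 2, ρ / 2⟩ : ℂ) + b • z).re = a * (ρ / 2) + b * z.re := by simp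
    have him : (a • (⟨ρ / 2, ρ / 2⟩ : ℂ) + b • z).im = a * (ρ / 2) + b * z.im := by simp
    have hpos : ∀ t : ℝ, 0 < t → 0 < a * (ρ / 2) + b * t := by
      intro t ht
      rcases lt_or_eq_of_le ha with h | h
      · have : 0 ≤ b * t := mul_nonneg hb ht.le
        have : 0 < a * (ρ / 2) := by positivity
        linarith
      · have : b = 1 := by linarith
        rw [← h, this]; linarith
    have hlt : ∀ t u : ℝ, ρ / 2 < u → t < u → a * (ρ / 2) + b * t < u := by
      intro t u hu ht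
      rcases lt_or_eq_of_le ha with h | h
      · nlinarith
      · have : b = 1 := by linarith
        rw [← h, this]; linarith
    refine ⟨?_, ?_, ?_⟩
    · rw [hre]; exact hpos _ h1
    · rw [him]; exact hpos _ h2
    · rw [hre, him]
      rcases h3 with h | h
      · exact Or.inl ⟨hlt _ _ (by linarith) h.1, hlt _ _ (by linarith) h.2⟩
      · exact Or.inr ⟨hlt _ _ (by linarith) h.1, hlt _ _ (by linarith) h.2⟩
  · exact ⟨by positivity, by positivity, Or.inl ⟨by simp only; linarith, by simp only; linarith⟩⟩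

end Pool.Agent.Helper793.Rob
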