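import Mathlib
import Pool.Agent.Helper793.Rob.Hex

open MeasureTheory Set
open scoped ENNReal NNReal ContDiff

namespace Pool.Agent.Helper793.Rob

theorem le_quot {m e : ℝ≥0∞} (hm0 : m ≠ 0) (hmt : m ≠ ⊤) {C : ℝ} (hC : 0 < C)
    (h : m ≤ ENNReal.ofReal C * e) : ENNReal.ofReal (1 / C) ≤ e / m := by
  rw [ENNReal.le_div_iff_mul_le (Or.inl hm0) (Or.inl hmt)]
  calc ENNReal.ofReal (1 / C) * m ≤ ENNReal.ofReal (1 / C) * (ENNReal.ofReal C * e) := by gcongr
    _ = e := by
        rw [← mul_assoc, ← ENNReal.ofReal_mul (by positivity)]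
        rw [one_div_mul_cancel hC.ne']
        simp

theorem quot_le {m e : ℝ≥0∞} {D : ℝ≥0∞} (h : e ≤ D * m) : e / m ≤ D :=
  ENNReal.div_le_of_le_mul h

/-- lower bound for the `k`-th eigenvalue -/
theorem le_nu {k : ℕ} {β : ℝ} {Ω : Set ℂ} (hΩ : Bornology.IsBounded Ω) {C : ℝ} (hC : 0 < C)
    (h : ∀ E ∈ testSpaces Ω k, ∃ u ∈ E, u ≠ 0 ∧ mass Ω u ≤ ENNReal.ofReal C * energy β Ω u) :
    ENNReal.ofReal (1 / C) ≤ nu k β Ω := by
  unfold nu
  refine le_iInf₂ (fun E hE => ?_)
  obtain ⟨u, huE, hu0, hu⟩ := h E hE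
  have hs := hE.2 u huE
  refine le_trans (le_quot (hs.2 hu0) (mass_ne_top hs.1.continuous hΩ) hC hu) ?_
  exact le_iSup₂_of_le (f := fun (u : ℂ → ℝ) (_ : u ∈ {u : ℂ → ℝ | u ∈ E ∧ u ≠ 0}) =>
    energy β Ω u / mass Ω u) u ⟨huE, hu0⟩ le_rfl

theorem nu_le {k : ℕ} {β : ℝ} {Ω : Set ℂ} {E : Submodule ℝ (ℂ → ℝ)} (hE : E ∈ testSpaces Ω k)
    {D : ℝ≥0∞} (h : ∀ u ∈ E, u ≠ 0 → energy β Ω u ≤ D * mass Ω u) : nu k β Ω ≤ D := by
  unfold nu
  refine iInf₂_le_of_le E hE ?_
  exact iSup₂_le (fun u hu => quot_le (h u hu.1 hu.2))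

theorem mass_smul (Ω : Set ℂ) (c : ℝ) (u : ℂ → ℝ) :
    mass Ω (c • u) = ENNReal.ofReal (c ^ 2) * mass Ω u := by
  unfold mass
  rw [← lintegral_const_mul' _ _ ENNReal.ofReal_ne_top]
  apply lintegral_congr
  intro z
  rw [← ENNReal.ofReal_mul (sq_nonneg c)]
  congr 1
  simp only [Pi.smul_apply, smul_eq_mul]
  ring

theorem gradSq_smul (c : ℝ) {u : ℂ → ℝ} (hu : ContDiff ℝ 1 u) (z : ℂ) :
    gradSq (c • u) z = c ^ 2 * gradSq u z := by
  unfold gradSq
  have : fderiv ℝ (c • u) z = c • fderiv ℝ u z :=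
    fderiv_const_smul (hu.differentiable one_ne_zero z) c
  rw [this]
  simp only [FunLike.coe_smul, Pi.smul_apply, smul_eq_mul]
  ring

theorem energy_smul (β : ℝ) (Ω : Set ℂ) (c : ℝ) {u : ℂ → ℝ} (hu : ContDiff ℝ 1 u) :
    energy β Ω (c • u) = ENNReal.ofReal (c ^ 2) * energy β Ω u := by
  unfold energy
  rw [mul_add]
  congr 1
  · rw [← lintegral_const_mul' _ _ ENNReal.ofReal_ne_top]
    apply lintegral_congr
    intro z
    rw [← ENNReal.ofReal_mul (sq_nonneg c), gradSq_smul c hu]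
  · have h : ∫⁻ z in frontier Ω, ENNReal.ofReal ((c • u) z ^ 2) ∂(Measure.hausdorffMeasure 1)
        = ENNReal.ofReal (c ^ 2) *
          ∫⁻ z in frontier Ω, ENNReal.ofReal (u z ^ 2) ∂(Measure.hausdorffMeasure 1) := by
      rw [← lintegral_const_mul' _ _ ENNReal.ofReal_ne_top]
      apply lintegral_congr
      intro z
      rw [← ENNReal.ofReal_mul (sq_nonneg c)]
      congr 1
      simp only [Pi.smul_apply, smul_eq_mul]
      ring
    rw [h]; ring

/-- upper bound for the first eigenvalue by one test function -/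
theorem nu_one_le {β : ℝ} {Ω : Set ℂ} {u : ℂ → ℝ} (hu : ContDiff ℝ ∞ u) (hm : mass Ω u ≠ 0)
    {D : ℝ≥0∞} (h : energy β Ω u ≤ D * mass Ω u) : nu 1 β Ω ≤ D := by
  have hu0 : u ≠ 0 := by
    rintro rfl
    apply hm
    unfold mass
    simp
  have hE : Submodule.span ℝ {u} ∈ testSpaces Ω 1 := by
    refine ⟨finrank_span_singleton hu0, ?_⟩
    intro v hv
    obtain ⟨c, rfl⟩ := Submodule.mem_span_singleton.mp hv
    refine ⟨contDiff_const.smul hu, ?_⟩
    intro hv0
    have hc : c ≠ 0 := by rintro rfl; simp at hv0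
    rw [mass_smul]
    apply mul_ne_zero _ hm
    rw [ne_eq, ENNReal.ofReal_eq_zero, not_le]
    positivity
  apply nu_le hE
  intro v hv hv0
  obtain ⟨c, rfl⟩ := Submodule.mem_span_singleton.mp hv
  rw [mass_smul, energy_smul β Ω c (hu.of_le (by exact_mod_cast le_top))]
  calc ENNReal.ofReal (c ^ 2) * energy β Ω u ≤ ENNReal.ofReal (c ^ 2) * (D * mass Ω u) := by gcongr
    _ = _ := by ring

/-- In a two-dimensional test space there is a nonzero function with mean zero on a bounded set. -/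
theorem exists_mean_zero {Ω Q : Set ℂ} (hQ : Bornology.IsBounded Q) {E : Submodule ℝ (ℂ → ℝ)}
    (hE : E ∈ testSpaces Ω 2) : ∃ u ∈ E, u ≠ 0 ∧ ∫ z in Q, u z = 0 := by
  have hint : ∀ u ∈ E, IntegrableOn u Q := fun u hu =>
    integrableOn_of_bounded (hE.2 u hu).1.continuous hQ
  let ℓ : E →ₗ[ℝ] ℝ :=
    { toFun := fun u => ∫ z in Q, u.1 z
      map_add' := by
        intro u v
        exact integral_add (hint u.1 u.2) (hint v.1 v.2)
      map_smul' := by
        intro c u
        simp only [RingHom.id_apply, smul_eq_mul]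
        exact integral_const_mul c _ }
  have hfd : FiniteDimensional ℝ E := Module.finite_of_finrank_pos (by rw [hE.1]; norm_num)
  have hker : LinearMap.ker ℓ ≠ ⊥ := by
    apply LinearMap.ker_ne_bot_of_finrank_lt
    rw [hE.1]
    simp
  obtain ⟨u, hu, hu0⟩ := (Submodule.ne_bot_iff _).mp hker
  exact ⟨u.1, u.2, fun h => hu0 (Subtype.ext h), hu⟩

/-- derivative bound for the smooth transition function -/
theorem exists_deriv_bound : ∃ K : ℝ, 0 < K ∧ ∀ t, |deriv Real.smoothTransition t| ≤ K := by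
  have hc : Continuous (deriv Real.smoothTransition) :=
    (Real.smoothTransition.contDiff (n := 1)).continuous_deriv le_rfl
  obtain ⟨K, hK⟩ := isCompact_Icc.exists_bound_of_continuousOn (s := Icc (0:ℝ) 1) hc.continuousOn
  refine ⟨max K 1, lt_max_of_lt_right one_pos, ?_⟩
  intro t
  by_cases ht : t ∈ Icc (0:ℝ) 1
  · exact (hK t ht).trans (le_max_left _ _)
  · have hz : deriv Real.smoothTransition t = 0 := by
      rw [mem_Icc, not_and_or, not_le, not_le] at ht
      rcases ht with h | h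
      · have : Real.smoothTransition =ᶠ[nhds t] fun _ => 0 := by
          filter_upwards [Iio_mem_nhds h] with x hx
          exact Real.smoothTransition.zero_of_nonpos (le_of_lt hx)
        rw [this.deriv_eq]; simp
      · have : Real.smoothTransition =ᶠ[nhds t] fun _ => 1 := by
          filter_upwards [Ioi_mem_nhds h] with x hx
          exact Real.smoothTransition.one_of_one_le (le_of_lt hx)
        rw [this.deriv_eq]; simp
    rw [hz, abs_zero]
    exact le_trans zero_le_one (le_max_right _ _)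

end Pool.Agent.Helper793.Rob
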