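import Mathlib
import Pool.Agent.Helper793.Rob.Spec

open MeasureTheory Set
open scoped ENNReal NNReal ContDiff

namespace Pool.Agent.Helper793.Rob

theorem fderiv_re_comp {f : ℝ → ℝ} (hf : ContDiff ℝ ∞ f) (z : ℂ) :
    fderiv ℝ (fun z : ℂ => f z.re) z = (deriv f z.re) • Complex.reCLM := by
  have h1 : HasFDerivAt (fun z : ℂ => z.re) Complex.reCLM z := Complex.reCLM.hasFDerivAt
  have h2 : HasDerivAt f (deriv f z.re) z.re :=
    (hf.differentiable (by simp) z.re).hasDerivAt
  exact (h2.comp_hasFDerivAt z h1).fderiv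

theorem gradSq_re_comp {f : ℝ → ℝ} (hf : ContDiff ℝ ∞ f) (z : ℂ) :
    gradSq (fun z : ℂ => f z.re) z = (deriv f z.re) ^ 2 := by
  unfold gradSq
  rw [fderiv_re_comp hf]
  simp

theorem contDiff_re_comp {f : ℝ → ℝ} (hf : ContDiff ℝ ∞ f) : ContDiff ℝ ∞ (fun z : ℂ => f z.re) :=
  hf.comp Complex.reCLM.contDiff

theorem mass_ne_zero_of_open {u : ℂ → ℝ} (hu : Continuous u) {Ω U : Set ℂ} (hU : IsOpen U)
    (hne : U.Nonempty) (hUΩ : U ⊆ Ω) (h : ∀ z ∈ U, u z ≠ 0) : mass Ω u ≠ 0 := by
  intro h0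
  have h1 : mass U u = 0 := by
    have : mass U u ≤ mass Ω u := lintegral_mono_set hUΩ
    rw [h0] at this
    exact le_antisymm this bot_le
  unfold mass at h1
  have hmeas : Measurable (fun z => ENNReal.ofReal (u z ^ 2)) :=
    (hu.measurable.pow_const 2).ennreal_ofReal
  rw [lintegral_eq_zero_iff hmeas] at h1
  rw [Filter.EventuallyEq, ae_restrict_iff' hU.measurableSet] at h1
  have h2 : volume U = 0 := by
    refine measure_mono_null ?_ h1
    intro z hz hz'
    have := hz' hz
    simp only [Pi.zero_apply, ENNReal.ofReal_eq_zero] at this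
    exact h z hz (by nlinarith [sq_nonneg (u z)])
  exact (hU.measure_pos volume hne).ne' h2

theorem nu_two_ne_top {β : ℝ} {Ω : Set ℂ} (hΩo : IsOpen Ω) (hne : Ω.Nonempty)
    (hΩ : Bornology.IsBounded Ω) (hfr : Measure.hausdorffMeasure 1 (frontier Ω) ≠ ⊤) :
    nu 2 β Ω ≠ ⊤ := by
  obtain ⟨p, hp⟩ := hne
  obtain ⟨K, hK0, hK⟩ := exists_deriv_bound
  set T := Real.smoothTransition with hT
  have hTc : ContDiff ℝ ∞ T := Real.smoothTransition.contDiff
  set g₁ : ℝ → ℝ := fun x => T (x - p.re) with hg₁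
  set g₂ : ℝ → ℝ := fun x => T (p.re - x) with hg₂
  have hg₁c : ContDiff ℝ ∞ g₁ := hTc.comp (contDiff_id.sub contDiff_const)
  have hg₂c : ContDiff ℝ ∞ g₂ := hTc.comp (contDiff_const.sub contDiff_id)
  set f₁ : ℂ → ℝ := fun z => g₁ z.re with hf₁
  set f₂ : ℂ → ℝ := fun z => g₂ z.re with hf₂
  have hf₁c : ContDiff ℝ ∞ f₁ := contDiff_re_comp hg₁c
  have hf₂c : ContDiff ℝ ∞ f₂ := contDiff_re_comp hg₂c
  have hderT : ∀ t ≤ (0:ℝ), deriv T t = 0 := by
    intro t ht
    have h1 : HasDerivAt T (deriv T t) t := (hTc.differentiable (by simp) t).hasDerivAt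
    have h2 : HasDerivWithinAt T (deriv T t) (Iic t) t := h1.hasDerivWithinAt
    have h3 : HasDerivWithinAt T 0 (Iic t) t := by
      apply (hasDerivWithinAt_const t (Iic t) (0:ℝ)).congr
      · intro x hx
        exact Real.smoothTransition.zero_of_nonpos (le_trans hx ht)
      · exact Real.smoothTransition.zero_of_nonpos ht
    exact (uniqueDiffWithinAt_Iic t).eq_deriv _ h2 h3
  have hT1 : ∀ t, T t ^ 2 ≤ 1 := by
    intro t
    have h1 := Real.smoothTransition.le_one t
    have h2 := Real.smoothTransition.nonneg t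
    nlinarith
  have hdg₁ : ∀ x, deriv g₁ x = deriv T (x - p.re) := by
    intro x
    rw [hg₁]
    exact deriv_comp_sub_const T p.re x
  have hdg₂ : ∀ x, deriv g₂ x = - deriv T (p.re - x) := by
    intro x
    rw [hg₂]
    exact deriv_comp_const_sub T p.re x
  have hm₁ : mass Ω f₁ ≠ 0 := by
    apply mass_ne_zero_of_open hf₁c.continuous
      (U := Ω ∩ {z : ℂ | p.re < z.re}) (hΩo.inter (isOpen_lt continuous_const Complex.continuous_re))
    · obtain ⟨ε, hε, hb⟩ := Metric.isOpen_iff.mp hΩo p hp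
      refine ⟨p + ((ε / 2 : ℝ) : ℂ), hb ?_, ?_⟩
      · rw [Metric.mem_ball, Complex.dist_eq]
        rw [add_sub_cancel_left, Complex.norm_real, Real.norm_eq_abs, abs_of_pos (by positivity)]
        linarith
      · simp only [mem_ofPred_eq, Complex.add_re, Complex.ofReal_re]; linarith
    · exact inter_subset_left
    · intro z hz
      exact (Real.smoothTransition.pos_of_pos (by simpa using hz.2)).ne'
  have hm₂ : mass Ω f₂ ≠ 0 := by
    apply mass_ne_zero_of_open hf₂c.continuous
      (U := Ω ∩ {z : ℂ | z.re < p.re}) (hΩo.inter (isOpen_lt Complex.continuous_re continuous_const))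
    · obtain ⟨ε, hε, hb⟩ := Metric.isOpen_iff.mp hΩo p hp
      refine ⟨p + ((-(ε / 2) : ℝ) : ℂ), hb ?_, ?_⟩
      · rw [Metric.mem_ball, Complex.dist_eq]
        rw [add_sub_cancel_left, Complex.norm_real, Real.norm_eq_abs, abs_neg,
          abs_of_pos (by positivity)]
        linarith
      · simp only [mem_ofPred_eq, Complex.add_re, Complex.ofReal_re]; linarith
    · exact inter_subset_left
    · intro z hz
      exact (Real.smoothTransition.pos_of_pos (by simpa using hz.2)).ne'
  have hprod : ∀ t : ℝ, T t * T (-t) = 0 := by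
    intro t
    rcases le_total t 0 with h | h
    · rw [hT, Real.smoothTransition.zero_of_nonpos h, zero_mul]
    · rw [hT, Real.smoothTransition.zero_of_nonpos (neg_nonpos.mpr h), mul_zero]
  have hprod' : ∀ t : ℝ, deriv T t * deriv T (-t) = 0 := by
    intro t
    rcases le_total t 0 with h | h
    · rw [hderT t h, zero_mul]
    · rw [hderT (-t) (neg_nonpos.mpr h), mul_zero]
  have hmass : ∀ a b : ℝ, mass Ω (a • f₁ + b • f₂) =
      ENNReal.ofReal (a ^ 2) * mass Ω f₁ + ENNReal.ofReal (b ^ 2) * mass Ω f₂ := by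
    intro a b
    rw [← mass_smul, ← mass_smul]
    unfold mass
    rw [← lintegral_add_left]
    · apply lintegral_congr
      intro z
      rw [← ENNReal.ofReal_add (sq_nonneg _) (sq_nonneg _)]
      congr 1
      have := hprod (z.re - p.re)
      rw [neg_sub] at this
      simp only [Pi.add_apply, Pi.smul_apply, smul_eq_mul, hf₁, hf₂, hg₁, hg₂]
      linear_combination 2 * a * b * this
    · exact (((continuous_const.mul hf₁c.continuous).measurable).pow_const 2).ennreal_ofReal
  have hmass0 : ∀ a b : ℝ, mass Ω (a • f₁ + b • f₂) = 0 → a = 0 ∧ b = 0 := by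
    intro a b h
    rw [hmass, add_eq_zero, mul_eq_zero, mul_eq_zero] at h
    constructor
    · rcases h.1 with h' | h'
      · rw [ENNReal.ofReal_eq_zero] at h'; nlinarith [sq_nonneg a]
      · exact absurd h' hm₁
    · rcases h.2 with h' | h'
      · rw [ENNReal.ofReal_eq_zero] at h'; nlinarith [sq_nonneg b]
      · exact absurd h' hm₂
  have hE : Submodule.span ℝ {f₁, f₂} ∈ testSpaces Ω 2 := by
    constructor
    · have hli : LinearIndependent ℝ ![f₁, f₂] := by
        rw [LinearIndependent.pair_iff]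
        intro a b h
        apply hmass0 a b
        rw [h]
        unfold mass
        simp
      have := finrank_span_eq_card hli
      have hr : Set.range ![f₁, f₂] = {f₁, f₂} := by
        simp only [Matrix.range_cons, Matrix.range_empty, Set.union_empty, Set.singleton_union]
      rw [hr] at this
      simpa using this
    · intro u hu
      obtain ⟨a, b, rfl⟩ := Submodule.mem_span_pair.mp hu
      refine ⟨(contDiff_const.smul hf₁c).add (contDiff_const.smul hf₂c), ?_⟩
      intro hne h0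
      obtain ⟨rfl, rfl⟩ := hmass0 a b h0
      simp at hne
  set W : ℝ≥0∞ := ENNReal.ofReal (K ^ 2) * volume Ω +
    ENNReal.ofReal β * Measure.hausdorffMeasure 1 (frontier Ω) with hW
  have hWt : W ≠ ⊤ := by
    rw [hW]
    exact ENNReal.add_ne_top.mpr ⟨ENNReal.mul_ne_top ENNReal.ofReal_ne_top hΩ.measure_lt_top.ne,
      ENNReal.mul_ne_top ENNReal.ofReal_ne_top hfr⟩
  have hD : nu 2 β Ω ≤ W / mass Ω f₁ + W / mass Ω f₂ := by
    apply nu_le hE
    intro u hu _
    obtain ⟨a, b, rfl⟩ := Submodule.mem_span_pair.mp hu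
    have hgr : ∀ z, gradSq (a • f₁ + b • f₂) z ≤ K ^ 2 * (a ^ 2 + b ^ 2) := by
      intro z
      have e1 : (a • f₁ + b • f₂) = fun z : ℂ => (fun x => a * g₁ x + b * g₂ x) z.re := by
        funext z; simp [hf₁, hf₂]
      rw [e1, gradSq_re_comp ((contDiff_const.mul hg₁c).add (contDiff_const.mul hg₂c))]
      have e2 : deriv (fun x => a * g₁ x + b * g₂ x) z.re = a * deriv T (z.re - p.re) - b * deriv T (p.re - z.re) := by
        have k1 := (hg₁c.differentiable (by simp) z.re).hasDerivAt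
        have k2 := (hg₂c.differentiable (by simp) z.re).hasDerivAt
        have k3 : HasDerivAt (fun x => a * g₁ x + b * g₂ x) (a * deriv g₁ z.re + b * deriv g₂ z.re) z.re :=
          (k1.const_mul a).add (k2.const_mul b)
        rw [k3.deriv, hdg₁, hdg₂]
        ring
      rw [e2]
      have e3 := hprod' (z.re - p.re)
      rw [neg_sub] at e3
      have e4 := hK (z.re - p.re)
      have e5 := hK (p.re - z.re)
      have e6 : deriv T (z.re - p.re) ^ 2 ≤ K ^ 2 := by
        rw [← sq_abs]; exact pow_le_pow_left₀ (abs_nonneg _) e4 2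
      have e7 : deriv T (p.re - z.re) ^ 2 ≤ K ^ 2 := by
        rw [← sq_abs]; exact pow_le_pow_left₀ (abs_nonneg _) e5 2
      have e8 : (a * deriv T (z.re - p.re) - b * deriv T (p.re - z.re)) ^ 2 =
        a ^ 2 * deriv T (z.re - p.re) ^ 2 + b ^ 2 * deriv T (p.re - z.re) ^ 2 := by
        linear_combination (-2) * a * b * e3
      rw [e8]
      nlinarith [mul_le_mul_of_nonneg_left e6 (sq_nonneg a), mul_le_mul_of_nonneg_left e7 (sq_nonneg b)]
    have hsq : ∀ z, (a • f₁ + b • f₂) z ^ 2 ≤ a ^ 2 + b ^ 2 := by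
      intro z
      have e3 := hprod (z.re - p.re)
      rw [neg_sub] at e3
      have e4 := hT1 (z.re - p.re)
      have e5 := hT1 (p.re - z.re)
      have e8 : (a • f₁ + b • f₂) z ^ 2 = a ^ 2 * T (z.re - p.re) ^ 2 + b ^ 2 * T (p.re - z.re) ^ 2 := by
        simp only [Pi.add_apply, Pi.smul_apply, smul_eq_mul, hf₁, hf₂, hg₁, hg₂]
        linear_combination 2 * a * b * e3
      rw [e8]
      nlinarith [mul_le_mul_of_nonneg_left e4 (sq_nonneg a), mul_le_mul_of_nonneg_left e5 (sq_nonneg b)]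
    have hen : energy β Ω (a • f₁ + b • f₂) ≤ (ENNReal.ofReal (a ^ 2) + ENNReal.ofReal (b ^ 2)) * W := by
      unfold energy
      have k1 : ∫⁻ z in Ω, ENNReal.ofReal (gradSq (a • f₁ + b • f₂) z) ≤
          ENNReal.ofReal (K ^ 2 * (a ^ 2 + b ^ 2)) * volume Ω := by
        calc ∫⁻ z in Ω, ENNReal.ofReal (gradSq (a • f₁ + b • f₂) z)
            ≤ ∫⁻ _ in Ω, ENNReal.ofReal (K ^ 2 * (a ^ 2 + b ^ 2)) :=
              lintegral_mono (fun z => ENNReal.ofReal_le_ofReal (hgr z))
          _ = _ := by rw [setLIntegral_const]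
      have k2 : ∫⁻ z in frontier Ω, ENNReal.ofReal ((a • f₁ + b • f₂) z ^ 2)
          ∂(Measure.hausdorffMeasure 1) ≤
          ENNReal.ofReal (a ^ 2 + b ^ 2) * Measure.hausdorffMeasure 1 (frontier Ω) := by
        calc ∫⁻ z in frontier Ω, ENNReal.ofReal ((a • f₁ + b • f₂) z ^ 2) ∂(Measure.hausdorffMeasure 1)
            ≤ ∫⁻ _ in frontier Ω, ENNReal.ofReal (a ^ 2 + b ^ 2) ∂(Measure.hausdorffMeasure 1) :=
              lintegral_mono (fun z => ENNReal.ofReal_le_ofReal (hsq z))
          _ = _ := by rw [setLIntegral_const]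
      calc _ ≤ ENNReal.ofReal (K ^ 2 * (a ^ 2 + b ^ 2)) * volume Ω + ENNReal.ofReal β *
            (ENNReal.ofReal (a ^ 2 + b ^ 2) * Measure.hausdorffMeasure 1 (frontier Ω)) := by gcongr
        _ = _ := by
          rw [ENNReal.ofReal_mul (sq_nonneg K), ENNReal.ofReal_add (sq_nonneg a) (sq_nonneg b), hW]
          ring
    refine hen.trans ?_
    rw [hmass]
    have c1 : W = W / mass Ω f₁ * mass Ω f₁ := by
      rw [ENNReal.div_mul_cancel hm₁ (mass_ne_top hf₁c.continuous hΩ)]
    have c2 : W = W / mass Ω f₂ * mass Ω f₂ := by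
      rw [ENNReal.div_mul_cancel hm₂ (mass_ne_top hf₂c.continuous hΩ)]
    calc (ENNReal.ofReal (a ^ 2) + ENNReal.ofReal (b ^ 2)) * W
        = ENNReal.ofReal (a ^ 2) * W + ENNReal.ofReal (b ^ 2) * W := by ring
      _ = W / mass Ω f₁ * (ENNReal.ofReal (a ^ 2) * mass Ω f₁) +
          W / mass Ω f₂ * (ENNReal.ofReal (b ^ 2) * mass Ω f₂) := by
          congr 1
          · conv_lhs => rw [c1]
            ring
          · conv_lhs => rw [c2]
            ring
      _ ≤ (W / mass Ω f₁ + W / mass Ω f₂) * (ENNReal.ofReal (a ^ 2) * mass Ω f₁) +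
          (W / mass Ω f₁ + W / mass Ω f₂) * (ENNReal.ofReal (b ^ 2) * mass Ω f₂) := by
          gcongr
          · exact le_self_add
          · exact le_add_self
      _ = _ := by ring
  refine ne_top_of_le_ne_top ?_ hD
  exact ENNReal.add_ne_top.mpr ⟨ENNReal.div_ne_top hWt hm₁, ENNReal.div_ne_top hWt hm₂⟩

end Pool.Agent.Helper793.Rob
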