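import Mathlib
import Pool.Agent.Helper793.Rob.Two

open MeasureTheory Set
open scoped ENNReal NNReal ContDiff

namespace Pool.Agent.Helper793.Rob

theorem isometry_v (a : ℝ) : Isometry (fun t : ℝ => (⟨a, t⟩ : ℂ)) := by
  apply Isometry.of_dist_eq
  intro x y
  rw [Complex.dist_eq, Real.dist_eq]
  have : (⟨a, x⟩ : ℂ) - ⟨a, y⟩ = ((x - y : ℝ) : ℂ) * Complex.I := by
    apply Complex.ext <;> simp
  rw [this, norm_mul, Complex.norm_real, Complex.norm_I, mul_one, Real.norm_eq_abs]

theorem isometry_h (b : ℝ) : Isometry (fun t : ℝ => (⟨t, b⟩ : ℂ)) := by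
  apply Isometry.of_dist_eq
  intro x y
  rw [Complex.dist_eq, Real.dist_eq]
  have : (⟨x, b⟩ : ℂ) - ⟨y, b⟩ = ((x - y : ℝ) : ℂ) := by
    apply Complex.ext <;> simp
  rw [this, Complex.norm_real, Real.norm_eq_abs]

theorem hm_v (a b c : ℝ) : Measure.hausdorffMeasure 1 ((fun t : ℝ => (⟨a, t⟩ : ℂ)) '' Icc b c)
    = ENNReal.ofReal (c - b) := by
  rw [(isometry_v a).hausdorffMeasure_image (Or.inl zero_le_one), MeasureTheory.hausdorffMeasure_real,
    Real.volume_Icc]

theorem hm_h (b a c : ℝ) : Measure.hausdorffMeasure 1 ((fun t : ℝ => (⟨t, b⟩ : ℂ)) '' Icc a c)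
    = ENNReal.ofReal (c - a) := by
  rw [(isometry_h b).hausdorffMeasure_image (Or.inl zero_le_one), MeasureTheory.hausdorffMeasure_real,
    Real.volume_Icc]

theorem frontier_hex_sub {s ρ L t : ℝ} (hρ : 0 < ρ) (hρs : ρ < s) (hsL : s < L) :
    frontier (hex s ρ L) ∩ {z | z.re ≤ t} ⊆
      ((fun t : ℝ => (⟨0, t⟩ : ℂ)) '' Icc 0 s) ∪
      (((fun r : ℝ => (⟨r, 0⟩ : ℂ)) '' Icc 0 t) ∪
      (((fun r : ℝ => (⟨r, s⟩ : ℂ)) '' Icc 0 s) ∪
      (((fun r : ℝ => (⟨s, r⟩ : ℂ)) '' Icc ρ s) ∪
      (((fun r : ℝ => (⟨r, ρ⟩ : ℂ)) '' Icc s t) ∪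
      ((fun r : ℝ => (⟨L, r⟩ : ℂ)) '' Icc 0 ρ))))) := by
  rintro z ⟨hz, hzt⟩
  simp only [mem_ofPred_eq] at hzt
  have hz1 := closure_hex_sub hρ hρs hsL (frontier_subset_closure hz)
  have hz2 : z ∉ hex s ρ L := by
    rw [(isOpen_hex s ρ L).frontier_eq] at hz
    exact hz.2
  obtain ⟨h1, h2, h3⟩ := hz1
  by_cases c1 : z.re = 0
  · left
    refine ⟨z.im, ⟨h2, by rcases h3 with h | h <;> linarith [h.2]⟩, ?_⟩
    exact Complex.ext c1.symm rfl
  · right
    by_cases c2 : z.im = 0
    · left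
      exact ⟨z.re, ⟨h1, hzt⟩, Complex.ext rfl c2.symm⟩
    · right
      have k1 : 0 < z.re := lt_of_le_of_ne h1 (Ne.symm c1)
      have k2 : 0 < z.im := lt_of_le_of_ne h2 (Ne.symm c2)
      have hz3 : ¬ ((z.re < s ∧ z.im < s) ∨ (z.re < L ∧ z.im < ρ)) := fun h => hz2 ⟨k1, k2, h⟩
      rw [not_or, not_and_or, not_and_or, not_lt, not_lt, not_lt, not_lt] at hz3
      obtain ⟨g1, g2⟩ := hz3
      rcases h3 with h | h
      · by_cases c3 : z.im = s
        · left
          exact ⟨z.re, ⟨h1, h.1⟩, Complex.ext rfl c3.symm⟩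
        · right; left
          have h4 : z.im < s := lt_of_le_of_ne h.2 c3
          have h5 : z.re = s := by rcases g1 with g | g <;> linarith [h.1]
          have h6 : ρ ≤ z.im := by rcases g2 with g | g <;> linarith
          exact ⟨z.im, ⟨h6, h.2⟩, Complex.ext h5.symm rfl⟩
      · by_cases c3 : z.re = L
        · right; right; right
          exact ⟨z.im, ⟨h2, h.2⟩, Complex.ext c3.symm rfl⟩
        · right; right; left
          have h4 : z.re < L := lt_of_le_of_ne h.1 c3
          have h5 : z.im = ρ := by rcases g2 with g | g <;> linarith [h.2]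
          have h6 : s ≤ z.re := by rcases g1 with g | g <;> linarith
          exact ⟨z.re, ⟨h6, hzt⟩, Complex.ext rfl h5.symm⟩

theorem hm_frontier_hex {s ρ L t : ℝ} (hρ : 0 < ρ) (hρs : ρ < s) (hsL : s < L) (hst : s ≤ t) :
    Measure.hausdorffMeasure 1 (frontier (hex s ρ L) ∩ {z | z.re ≤ t}) ≤
      ENNReal.ofReal (2 * s + 2 * t) := by
  refine (measure_mono (frontier_hex_sub hρ hρs hsL)).trans ?_
  refine (measure_union_le _ _).trans ?_
  refine (add_le_add le_rfl ((measure_union_le _ _).trans (add_le_add le_rfl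
    ((measure_union_le _ _).trans (add_le_add le_rfl
    ((measure_union_le _ _).trans (add_le_add le_rfl
    (measure_union_le _ _)))))))).trans ?_
  rw [hm_v, hm_h, hm_h, hm_v, hm_h, hm_v]
  rw [← ENNReal.ofReal_add (by linarith) (by linarith), ← ENNReal.ofReal_add (by linarith) (by linarith),
    ← ENNReal.ofReal_add (by linarith) (by linarith), ← ENNReal.ofReal_add (by linarith) (by linarith),
    ← ENNReal.ofReal_add (by linarith) (by linarith)]
  apply ENNReal.ofReal_le_ofReal
  linarith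

theorem hex_eq_reg {s ρ L : ℝ} (hρs : ρ < s) (hsL : s < L) :
    hex s ρ L = reg (Ioo 0 L) (fun _ => 0) (fun x => if x < s then s else ρ) := by
  ext z
  simp only [hex, reg, mem_ofPred_eq, mem_Ioo]
  constructor
  · rintro ⟨h1, h2, h3⟩
    refine ⟨⟨h1, by rcases h3 with h | h <;> linarith [h.1]⟩, h2, ?_⟩
    split_ifs with hc
    · rcases h3 with h | h <;> linarith [h.2]
    · rcases h3 with h | h
      · exact absurd h.1 hc
      · exact h.2
  · rintro ⟨⟨h1, h2⟩, h3, h4⟩
    refine ⟨h1, h3, ?_⟩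
    split_ifs at h4 with hc
    · exact Or.inl ⟨hc, h4⟩
    · exact Or.inr ⟨h2, h4⟩

theorem hex_eq_union {s ρ L : ℝ} (hs : 0 < s) (hρs : ρ < s) (_ : s < L) :
    hex s ρ L = Qs s ∪ reg (Ico s L) (fun _ => 0) (fun _ => ρ) := by
  ext z
  simp only [hex, reg, Qs, mem_union, mem_ofPred_eq, mem_Ioo, mem_Ico]
  constructor
  · rintro ⟨h1, h2, h3⟩
    by_cases hc : z.re < s
    · left
      exact ⟨⟨h1, hc⟩, h2, by rcases h3 with h | h <;> linarith [h.2]⟩
    · right
      rw [not_lt] at hc
      rcases h3 with h | h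
      · exact absurd h.1 (not_lt.mpr hc)
      · exact ⟨⟨hc, h.1⟩, h2, h.2⟩
  · rintro (⟨⟨h1, h2⟩, h3, h4⟩ | ⟨⟨h1, h2⟩, h3, h4⟩)
    · exact ⟨h1, h3, Or.inl ⟨h2, h4⟩⟩
    · exact ⟨by linarith, h3, Or.inr ⟨h2, h4⟩⟩

theorem measurableSet_Qs (s : ℝ) : MeasurableSet (Qs s) :=
  measurableSet_reg measurableSet_Ioo measurable_const measurable_const

theorem measurableSet_tail (s ρ L : ℝ) : MeasurableSet (reg (Ico s L) (fun _ => 0) (fun _ => ρ)) :=
  measurableSet_reg measurableSet_Ico measurable_const measurable_const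

theorem disjoint_parts (s ρ L : ℝ) : Disjoint (Qs s) (reg (Ico s L) (fun _ => 0) (fun _ => ρ)) := by
  rw [Set.disjoint_left]
  rintro z ⟨h1, _⟩ ⟨h2, _⟩
  exact absurd h1.2 (not_lt.mpr h2.1)

theorem lintegral_hex {s ρ L : ℝ} (hs : 0 < s) (hρs : ρ < s) (hsL : s < L) (F : ℂ → ℝ≥0∞) :
    ∫⁻ z in hex s ρ L, F z = (∫⁻ z in Qs s, F z) +
      ∫⁻ z in reg (Ico s L) (fun _ => 0) (fun _ => ρ), F z := by
  rw [hex_eq_union hs hρs hsL, lintegral_union (measurableSet_tail s ρ L) (disjoint_parts s ρ L)]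

theorem volume_reg {I : Set ℝ} (hI : MeasurableSet I) (b : ℝ) :
    volume (reg I (fun _ => 0) (fun _ => b)) = ENNReal.ofReal b * volume I := by
  have h := lintegral_reg hI (g := fun _ => 0) (h := fun _ => b) measurable_const measurable_const
    (F := fun _ => 1) measurable_const
  rw [setLIntegral_one] at h
  rw [h]
  simp [Real.volume_Ioo]

theorem volume_hex {s ρ L : ℝ} (hρ : 0 < ρ) (hρs : ρ < s) (hsL : s < L) :
    volume (hex s ρ L) = ENNReal.ofReal (s ^ 2 + ρ * (L - s)) := by
  have hs : 0 < s := hρ.trans hρs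
  rw [hex_eq_union hs hρs hsL, measure_union (disjoint_parts s ρ L) (measurableSet_tail s ρ L), Qs,
    volume_reg measurableSet_Ioo, volume_reg measurableSet_Ico, Real.volume_Ioo, Real.volume_Ico,
    ← ENNReal.ofReal_mul hs.le, ← ENNReal.ofReal_mul hρ.le, ← ENNReal.ofReal_add]
  · congr 1; ring
  · nlinarith
  · nlinarith

/-- general Friedrichs type inequality for regions above a graph contained in the boundary -/
theorem mass_le_energy_reg {I : Set ℝ} (hI : MeasurableSet I) {g h : ℝ → ℝ} (hg : Measurable g)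
    (hh : Measurable h) {H : ℝ} (hH : ∀ x ∈ I, h x - g x ≤ H) (hH0 : 0 ≤ H)
    (hfr : ∀ x ∈ I, (⟨x, g x⟩ : ℂ) ∈ frontier (reg I g h)) {β : ℝ} (hβ : 0 < β)
    {u : ℂ → ℝ} (hu : ContDiff ℝ 1 u) :
    mass (reg I g h) u ≤ ENNReal.ofReal (2 * H / β + 2 * H ^ 2) * energy β (reg I g h) u := by
  refine (mass_reg_le hI hg hh hH hH0 hu).trans ?_
  have hum : Measurable (fun z => ENNReal.ofReal (u z ^ 2)) :=
    (hu.continuous.measurable.pow_const 2).ennreal_ofReal
  have h1 := graph_le (S := frontier (reg I g h)) hg hfr hum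
  have e1 : ENNReal.ofReal (2 * H) = ENNReal.ofReal (2 * H / β) * ENNReal.ofReal β := by
    rw [← ENNReal.ofReal_mul (by positivity), div_mul_cancel₀ _ hβ.ne']
  unfold energy
  rw [mul_add]
  rw [add_comm]
  apply add_le_add
  · gcongr
    have : 0 ≤ 2 * H / β := by positivity
    linarith
  · rw [e1, mul_assoc]
    gcongr
    have : 0 ≤ 2 * H ^ 2 := by positivity
    linarith

theorem bottom_mem_frontier {s ρ L : ℝ} (hρ : 0 < ρ) (hρs : ρ < s) (hsL : s < L) {x : ℝ}
    (hx : x ∈ Ioo 0 L) : (⟨x, 0⟩ : ℂ) ∈ frontier (hex s ρ L) := by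
  rw [(isOpen_hex s ρ L).frontier_eq]
  constructor
  · rw [Metric.mem_closure_iff]
    intro ε hε
    refine ⟨⟨x, min (ρ / 2) (ε / 2)⟩, ⟨hx.1, lt_min (by linarith) (by linarith), Or.inr ⟨hx.2, ?_⟩⟩, ?_⟩
    · exact (min_le_left _ _).trans_lt (by linarith)
    · rw [(isometry_v x).dist_eq, Real.dist_eq, zero_sub, abs_neg, abs_of_pos (lt_min (by linarith) (by linarith))]
      exact (min_le_right _ _).trans_lt (by linarith)
  · rintro ⟨_, h, _⟩
    exact lt_irrefl _ h

theorem nu_one_hex_pos {s ρ L : ℝ} (hρ : 0 < ρ) (hρs : ρ < s) (hsL : s < L) {β : ℝ} (hβ : 0 < β) :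
    0 < nu 1 β (hex s ρ L) := by
  have hs : 0 < s := hρ.trans hρs
  have hC : 0 < 2 * s / β + 2 * s ^ 2 := by positivity
  refine lt_of_lt_of_le ?_ (le_nu (hex_bounded hρ hρs hsL) hC ?_)
  · rw [ENNReal.ofReal_pos]; positivity
  · intro E hE
    have hfd : FiniteDimensional ℝ E := Module.finite_of_finrank_pos (by rw [hE.1]; norm_num)
    have : Nontrivial E := Module.nontrivial_of_finrank_pos (R := ℝ) (by rw [hE.1]; norm_num)
    obtain ⟨u, hu⟩ := exists_ne (0 : E)
    refine ⟨u.1, u.2, fun h => hu (Subtype.ext h), ?_⟩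
    have hreg := hex_eq_reg (ρ := ρ) hρs hsL
    rw [hreg]
    apply mass_le_energy_reg measurableSet_Ioo measurable_const
      (Measurable.ite measurableSet_Iio measurable_const measurable_const) _ hs.le _ hβ
      ((hE.2 u.1 u.2).1.of_le (by exact_mod_cast le_top))
    · intro x _
      split_ifs <;> linarith
    · intro x hx
      rw [← hreg]
      exact bottom_mem_frontier hρ hρs hsL hx

theorem nu_two_hex {s ρ L : ℝ} (hρ : 0 < ρ) (hρs : ρ < s) (hsL : s < L) {β : ℝ} (hβ : 0 < β)
    (hρβ : ρ ≤ s ^ 2 * β) :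
    ENNReal.ofReal (1 / (2 * s ^ 2)) ≤ nu 2 β (hex s ρ L) := by
  have hs : 0 < s := hρ.trans hρs
  apply le_nu (hex_bounded hρ hρs hsL) (by positivity)
  intro E hE
  obtain ⟨u, huE, hu0, hmean⟩ := exists_mean_zero (Qs_bounded s) hE
  refine ⟨u, huE, hu0, ?_⟩
  have hu : ContDiff ℝ 1 u := (hE.2 u huE).1.of_le (by exact_mod_cast le_top)
  have h1 := poincare_square hs hu hmean
  have hT := mass_reg_le (I := Ico s L) (g := fun _ => 0) (h := fun _ => ρ) measurableSet_Ico
    measurable_const measurable_const (H := ρ) (fun x _ => by simp) hρ.le hu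
  have hum : Measurable (fun z => ENNReal.ofReal (u z ^ 2)) :=
    (hu.continuous.measurable.pow_const 2).ennreal_ofReal
  have h2 := graph_le (I := Ico s L) (S := frontier (hex s ρ L)) (g := fun _ => 0) measurable_const
    (fun x hx => bottom_mem_frontier hρ hρs hsL ⟨by linarith [hx.1], hx.2⟩) hum
  have hmass : mass (hex s ρ L) u = mass (Qs s) u + mass (reg (Ico s L) (fun _ => 0) (fun _ => ρ)) u :=
    lintegral_hex hs hρs hsL _
  unfold energy
  rw [hmass, lintegral_hex hs hρs hsL]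
  set G1 := ∫⁻ z in Qs s, ENNReal.ofReal (gradSq u z)
  set G2 := ∫⁻ z in reg (Ico s L) (fun _ => 0) (fun _ => ρ), ENNReal.ofReal (gradSq u z)
  set Bd := ∫⁻ z in frontier (hex s ρ L), ENNReal.ofReal (u z ^ 2) ∂(Measure.hausdorffMeasure 1)
  calc mass (Qs s) u + mass (reg (Ico s L) (fun _ => 0) (fun _ => ρ)) u
      ≤ ENNReal.ofReal (2 * s ^ 2) * G1 + (ENNReal.ofReal (2 * ρ) * Bd +
        ENNReal.ofReal (2 * ρ ^ 2) * G2) := by
        refine add_le_add h1 (hT.trans (add_le_add ?_ le_rfl))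
        gcongr
    _ ≤ ENNReal.ofReal (2 * s ^ 2) * G1 + (ENNReal.ofReal (2 * s ^ 2 * β) * Bd +
        ENNReal.ofReal (2 * s ^ 2) * G2) := by
        have k1 : ENNReal.ofReal (2 * ρ) ≤ ENNReal.ofReal (2 * s ^ 2 * β) :=
          ENNReal.ofReal_le_ofReal (by nlinarith)
        have k2 : ENNReal.ofReal (2 * ρ ^ 2) ≤ ENNReal.ofReal (2 * s ^ 2) :=
          ENNReal.ofReal_le_ofReal (by nlinarith)
        gcongr
    _ = _ := by
        rw [ENNReal.ofReal_mul (by positivity : (0:ℝ) ≤ 2 * s ^ 2)]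
        ring

theorem nu_one_hex_le {K : ℝ} (hK : 0 < K) (hKd : ∀ t, |deriv Real.smoothTransition t| ≤ K)
    {s ρ L : ℝ} (hρ : 0 < ρ) (hρs : ρ < s) (hsL : 2 * s < L) {β : ℝ} (hβ : 0 < β)
    (hρ2 : ρ ≤ s ^ 2) :
    nu 1 β (hex s ρ L) ≤ ENNReal.ofReal ((K ^ 2 + 6 * β) / s) := by
  have hs : 0 < s := hρ.trans hρs
  have hsL' : s < L := by linarith
  set T := Real.smoothTransition with hT
  have hTc : ContDiff ℝ ∞ T := Real.smoothTransition.contDiff
  set f : ℝ → ℝ := fun x => T (2 - x / s) with hf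
  have hfc : ContDiff ℝ ∞ f := hTc.comp (contDiff_const.sub (contDiff_id.div_const s))
  set u : ℂ → ℝ := fun z => f z.re with hu
  have huc : ContDiff ℝ ∞ u := contDiff_re_comp hfc
  have hT1 : ∀ t, T t ^ 2 ≤ 1 := by
    intro t
    have h1 := Real.smoothTransition.le_one t
    have h2 := Real.smoothTransition.nonneg t
    nlinarith
  have hdf : ∀ x, deriv f x = - (deriv T (2 - x / s)) / s := by
    intro x
    have k1 : HasDerivAt T (deriv T (2 - x / s)) (2 - x / s) :=
      (hTc.differentiable (by simp) _).hasDerivAt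
    have k2 : HasDerivAt (fun x : ℝ => 2 - x / s) (-(1 / s)) x :=
      ((hasDerivAt_id x).div_const s).const_sub 2
    have k3 : HasDerivAt (T ∘ (fun x : ℝ => 2 - x / s)) (deriv T (2 - x / s) * (-(1 / s))) x :=
      HasDerivAt.comp x (h₂ := T) k1 k2
    have k4 : f = T ∘ (fun x : ℝ => 2 - x / s) := rfl
    rw [k4, k3.deriv]
    ring
  have hgr : ∀ z, gradSq u z ≤ (K / s) ^ 2 := by
    intro z
    rw [hu, gradSq_re_comp hfc, hdf, div_pow, neg_sq, div_pow]
    apply div_le_div_of_nonneg_right _ (sq_nonneg s)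
    rw [← sq_abs]
    exact pow_le_pow_left₀ (abs_nonneg _) (hKd _) 2
  have hgr0 : ∀ z : ℂ, z.re < s ∨ 2 * s < z.re → gradSq u z = 0 := by
    intro z hz
    rw [hu, gradSq_re_comp hfc]
    have : deriv f z.re = 0 := by
      rcases hz with hz | hz
      · have : f =ᶠ[nhds z.re] fun _ => 1 := by
          filter_upwards [Iio_mem_nhds hz] with x hx
          apply Real.smoothTransition.one_of_one_le
          have : x / s ≤ 1 := by rw [div_le_one hs]; exact le_of_lt hx
          linarith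
        rw [this.deriv_eq]; simp
      · have : f =ᶠ[nhds z.re] fun _ => 0 := by
          filter_upwards [Ioi_mem_nhds hz] with x hx
          apply Real.smoothTransition.zero_of_nonpos
          have : 2 ≤ x / s := by rw [le_div_iff₀ hs]; exact le_of_lt hx
          linarith
        rw [this.deriv_eq]; simp
    rw [this]; norm_num
  -- gradient term
  have hgrad : ∫⁻ z in hex s ρ L, ENNReal.ofReal (gradSq u z) ≤ ENNReal.ofReal (K ^ 2 * s) := by
    have h1 : ∀ z ∈ hex s ρ L, ENNReal.ofReal (gradSq u z) ≤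
        (reg (Icc s (2 * s)) (fun _ => 0) (fun _ => ρ)).indicator (fun _ => ENNReal.ofReal ((K / s) ^ 2)) z := by
      intro z hz
      by_cases hzr : z ∈ reg (Icc s (2 * s)) (fun _ => 0) (fun _ => ρ)
      · rw [indicator_of_mem hzr]; exact ENNReal.ofReal_le_ofReal (hgr z)
      · rw [indicator_of_notMem hzr]
        have : z.re < s ∨ 2 * s < z.re := by
          by_contra hcon
          rw [not_or, not_lt, not_lt] at hcon
          apply hzr
          refine ⟨hcon, hz.2.1, ?_⟩
          rcases hz.2.2 with h | h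
          · exact absurd h.1 (not_lt.mpr hcon.1)
          · exact h.2
        rw [hgr0 z this]; simp
    calc ∫⁻ z in hex s ρ L, ENNReal.ofReal (gradSq u z)
        ≤ ∫⁻ z in hex s ρ L, (reg (Icc s (2 * s)) (fun _ => 0) (fun _ => ρ)).indicator
          (fun _ => ENNReal.ofReal ((K / s) ^ 2)) z :=
          setLIntegral_mono' (isOpen_hex s ρ L).measurableSet h1
      _ ≤ ∫⁻ z, (reg (Icc s (2 * s)) (fun _ => 0) (fun _ => ρ)).indicator
          (fun _ => ENNReal.ofReal ((K / s) ^ 2)) z := setLIntegral_le_lintegral _ _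
      _ = ENNReal.ofReal ((K / s) ^ 2) * (ENNReal.ofReal ρ * ENNReal.ofReal (2 * s - s)) := by
          rw [lintegral_indicator_const (measurableSet_reg measurableSet_Icc measurable_const
            measurable_const), volume_reg measurableSet_Icc, Real.volume_Icc]
      _ ≤ ENNReal.ofReal (K ^ 2 * s) := by
          rw [← ENNReal.ofReal_mul hρ.le, ← ENNReal.ofReal_mul (sq_nonneg _)]
          apply ENNReal.ofReal_le_ofReal
          have : (K / s) ^ 2 * (ρ * (2 * s - s)) = K ^ 2 * (ρ / s) := by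
            field_simp; ring
          rw [this]
          gcongr
          rw [div_le_iff₀ hs]
          nlinarith
  have hbd : ∫⁻ z in frontier (hex s ρ L), ENNReal.ofReal (u z ^ 2) ∂(Measure.hausdorffMeasure 1)
      ≤ ENNReal.ofReal (6 * s) := by
    have hms : MeasurableSet {z : ℂ | z.re ≤ 2 * s} := measurableSet_le Complex.measurable_re measurable_const
    calc ∫⁻ z in frontier (hex s ρ L), ENNReal.ofReal (u z ^ 2) ∂(Measure.hausdorffMeasure 1)
        ≤ ∫⁻ z in frontier (hex s ρ L), ({z : ℂ | z.re ≤ 2 * s}.indicator (fun _ => 1) z)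
          ∂(Measure.hausdorffMeasure 1) := by
          apply lintegral_mono
          intro z
          show ENNReal.ofReal (u z ^ 2) ≤ _
          by_cases hz : z ∈ {z : ℂ | z.re ≤ 2 * s}
          · rw [indicator_of_mem hz]
            rw [ENNReal.ofReal_le_one]
            exact hT1 _
          · rw [indicator_of_notMem hz]
            have hz' : 2 * s < z.re := by simpa using hz
            have : u z = 0 := by
              apply Real.smoothTransition.zero_of_nonpos
              have : 2 ≤ z.re / s := by rw [le_div_iff₀ hs]; exact le_of_lt hz'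
              linarith
            rw [this]; simp
      _ = Measure.hausdorffMeasure 1 (frontier (hex s ρ L) ∩ {z : ℂ | z.re ≤ 2 * s}) := by
          rw [lintegral_indicator hms, setLIntegral_one, Measure.restrict_apply hms, inter_comm]
      _ ≤ ENNReal.ofReal (2 * s + 2 * (2 * s)) := hm_frontier_hex hρ hρs hsL' (by linarith)
      _ = _ := by congr 1; ring
  have hmass : ENNReal.ofReal (s ^ 2) ≤ mass (hex s ρ L) u := by
    calc ENNReal.ofReal (s ^ 2) = volume (Qs s) := by
          rw [Qs, volume_reg measurableSet_Ioo, Real.volume_Ioo, ← ENNReal.ofReal_mul hs.le]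
          congr 1; ring
      _ = ∫⁻ z in Qs s, 1 := by rw [setLIntegral_one]
      _ ≤ ∫⁻ z in Qs s, ENNReal.ofReal (u z ^ 2) := by
          apply setLIntegral_mono' (measurableSet_Qs s)
          intro z hz
          have : u z = 1 := by
            apply Real.smoothTransition.one_of_one_le
            have : z.re / s ≤ 1 := by rw [div_le_one hs]; exact hz.1.2.le
            linarith
          rw [this]; simp
      _ ≤ mass (hex s ρ L) u := by
          apply lintegral_mono_set
          rw [hex_eq_union hs hρs hsL']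
          exact subset_union_left
  have hm0 : mass (hex s ρ L) u ≠ 0 := by
    intro h
    rw [h, nonpos_iff_eq_zero, ENNReal.ofReal_eq_zero] at hmass
    have : 0 < s ^ 2 := by positivity
    linarith
  apply nu_one_le huc hm0
  calc energy β (hex s ρ L) u ≤ ENNReal.ofReal (K ^ 2 * s) + ENNReal.ofReal β * ENNReal.ofReal (6 * s) := by
        unfold energy
        gcongr
    _ = ENNReal.ofReal ((K ^ 2 + 6 * β) / s) * ENNReal.ofReal (s ^ 2) := by
        rw [← ENNReal.ofReal_mul hβ.le, ← ENNReal.ofReal_add (by positivity) (by positivity),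
          ← ENNReal.ofReal_mul (by positivity)]
        congr 1
        field_simp
    _ ≤ _ := by gcongr

end Pool.Agent.Helper793.Rob
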