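import Mathlib
import Pool.Agent.Helper793.Rob.HexSpec

open MeasureTheory Set
open scoped ENNReal NNReal ContDiff

namespace Pool.Agent.Helper793.Rob

theorem ball_eq_reg {R : ℝ} (hR : 0 < R) :
    Metric.ball (0 : ℂ) R = reg (Ioo (-R) R) (fun x => -Real.sqrt (R ^ 2 - x ^ 2))
      (fun x => Real.sqrt (R ^ 2 - x ^ 2)) := by
  ext z
  rw [mem_ball_zero_iff]
  simp only [reg, mem_ofPred_eq]
  have h1 : ‖z‖ < R ↔ z.re ^ 2 + z.im ^ 2 < R ^ 2 := by
    rw [Complex.norm_eq_sqrt_sq_add_sq, Real.sqrt_lt' hR]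
  rw [h1]
  constructor
  · intro h
    have h2 : z.re ^ 2 < R ^ 2 := by nlinarith [sq_nonneg z.im]
    refine ⟨abs_lt.mp (abs_lt_of_sq_lt_sq h2 hR.le), ?_⟩
    have h3 : z.im ^ 2 < R ^ 2 - z.re ^ 2 := by linarith
    exact abs_lt.mp ((Real.lt_sqrt (abs_nonneg _)).mpr (by rw [sq_abs]; exact h3))
  · rintro ⟨_, h3⟩
    have h4 : |z.im| < Real.sqrt (R ^ 2 - z.re ^ 2) := abs_lt.mpr h3
    have h5 : 0 < Real.sqrt (R ^ 2 - z.re ^ 2) := (abs_nonneg _).trans_lt h4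
    have h6 : z.im ^ 2 < R ^ 2 - z.re ^ 2 := by
      rw [← sq_abs]
      exact (Real.lt_sqrt (abs_nonneg _)).mp h4
    linarith

theorem hm_sphere {R : ℝ} : Measure.hausdorffMeasure 1 (Metric.sphere (0 : ℂ) |R|) ≠ ⊤ := by
  rw [← image_circleMap_Ioc]
  have h := (lipschitzWith_circleMap 0 R).hausdorffMeasure_image_le zero_le_one (Ioc 0 (2 * Real.pi))
  refine ne_top_of_le_ne_top ?_ h
  rw [MeasureTheory.hausdorffMeasure_real, Real.volume_Ioc]
  exact ENNReal.mul_ne_top (by simp) ENNReal.ofReal_ne_top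

theorem nu_one_ball_pos {R : ℝ} (hR : 0 < R) {β : ℝ} (hβ : 0 < β) :
    0 < nu 1 β (Metric.ball (0 : ℂ) R) := by
  have hC : 0 < 2 * (2 * R) / β + 2 * (2 * R) ^ 2 := by positivity
  refine lt_of_lt_of_le ?_ (le_nu Metric.isBounded_ball hC ?_)
  · rw [ENNReal.ofReal_pos]; positivity
  · intro E hE
    have hfd : FiniteDimensional ℝ E := Module.finite_of_finrank_pos (by rw [hE.1]; norm_num)
    have : Nontrivial E := Module.nontrivial_of_finrank_pos (R := ℝ) (by rw [hE.1]; norm_num)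
    obtain ⟨u, hu⟩ := exists_ne (0 : E)
    refine ⟨u.1, u.2, fun h => hu (Subtype.ext h), ?_⟩
    have hreg := ball_eq_reg hR
    rw [hreg]
    have hm : Measurable (fun x : ℝ => Real.sqrt (R ^ 2 - x ^ 2)) := by fun_prop
    have hm' : Measurable (fun x : ℝ => -Real.sqrt (R ^ 2 - x ^ 2)) := by fun_prop
    apply mass_le_energy_reg measurableSet_Ioo hm' hm _ (by positivity) _ hβ
      ((hE.2 u.1 u.2).1.of_le (by exact_mod_cast le_top))
    · intro x _
      have : Real.sqrt (R ^ 2 - x ^ 2) ≤ R := by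
        rw [Real.sqrt_le_left hR.le]; nlinarith [sq_nonneg x]
      linarith
    · intro x hx
      rw [← hreg, frontier_ball _ hR.ne', mem_sphere_zero_iff_norm, Complex.norm_eq_sqrt_sq_add_sq]
      have h2 : 0 ≤ R ^ 2 - x ^ 2 := by nlinarith [hx.1, hx.2]
      simp only [neg_sq]
      rw [Real.sq_sqrt h2]
      rw [add_sub_cancel, Real.sqrt_sq hR.le]

theorem nu_two_ball {R : ℝ} (hR : 0 < R) (β : ℝ) : nu 2 β (Metric.ball (0 : ℂ) R) ≠ ⊤ := by
  apply nu_two_ne_top Metric.isOpen_ball ⟨0, Metric.mem_ball_self hR⟩ Metric.isBounded_ball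
  rw [frontier_ball _ hR.ne']
  have := hm_sphere (R := R)
  rwa [abs_of_pos hR] at this

theorem nu_two_hex_ne_top {s ρ L : ℝ} (hρ : 0 < ρ) (hρs : ρ < s) (hsL : s < L) (β : ℝ) :
    nu 2 β (hex s ρ L) ≠ ⊤ := by
  apply nu_two_ne_top (isOpen_hex s ρ L) ⟨_, (starConvex_hex hρ hρs hsL).2⟩ (hex_bounded hρ hρs hsL)
  have h := hm_frontier_hex hρ hρs hsL (t := L) hsL.le
  refine ne_top_of_le_ne_top ENNReal.ofReal_ne_top (le_trans (measure_mono ?_) h)
  intro z hz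
  refine ⟨hz, ?_⟩
  obtain ⟨_, _, h3⟩ := closure_hex_sub hρ hρs hsL (frontier_subset_closure hz)
  simp only [mem_ofPred_eq]
  rcases h3 with h | h <;> linarith [h.1]

end Pool.Agent.Helper793.Rob
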